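import Mathlib

/-!
# Box dimension of spirals at degenerate foci with unequal exponents

For odd `m > n` and `k ≥ 1`, every spiral trajectory near the origin of
`x' = -n y^(2n-1) + σ n x^m y^(n-1) ρ^k`, `y' = m x^(2m-1) + σ m x^(m-1) y^n ρ^k`
(`ρ = x^(2m) + y^(2n)`, `σ = ±1`) has Minkowski dimension `2 - (1 + n/m)/(1 + 2kn)`.

Idea: with `u = x^m`, `v = y^n` and a new time the system becomes
`(u + iv)' = (i + σ ρ^k)(u + iv)`, so that trajectories are explicit:
`u = R cos φ`, `v = ± R sin φ`, `R = (2kτ + c)^(-1/(2k))`, `φ = φ₀ + τ`. The area of the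
`ε`-neighbourhood is then comparable to `ε^((1 + n/m)/(1 + 2kn))`.
-/

open MeasureTheory Set Filter Topology
open scoped ENNReal

namespace Pool.Agent.Results.MP_7e532d_an.DegenerateFocus

/-- The Euclidean plane. -/
abbrev Plane : Type := EuclideanSpace ℝ (Fin 2)

/-- `|S_ε|`: the area of the set of points at distance at most `ε` from `S`. -/
noncomputable def area (S : Set Plane) (ε : ℝ) : ℝ := (volume (Metric.cthickening ε S)).toReal

/-- `S` has Minkowski (box) dimension `d`: `2 - log |S_ε| / log ε → d` as `ε → 0+`. -/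
def HasMinkowskiDim (S : Set Plane) (d : ℝ) : Prop :=
  Tendsto (fun ε : ℝ => 2 - Real.log (area S ε) / Real.log ε) (𝓝[>] 0) (𝓝 d)

/-! ### Boxes -/

/-- The axis-parallel closed box. -/
def box (a b c d : ℝ) : Set Plane := {p | p 0 ∈ Icc a b ∧ p 1 ∈ Icc c d}

lemma volume_box {a b c d : ℝ} (h1 : a ≤ b) :
    volume (box a b c d) = ENNReal.ofReal ((b - a) * (d - c)) := by
  have h := (EuclideanSpace.volume_preserving_symm_measurableEquiv_toLp (Fin 2))
  have e : box a b c d = (MeasurableEquiv.toLp 2 (Fin 2 → ℝ)).symm ⁻¹'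
      (Set.pi univ fun i : Fin 2 => Icc (![a, c] i) (![b, d] i)) := by
    ext p
    simp only [box, Set.mem_preimage, Set.mem_pi, Set.mem_univ, forall_true_left,
      Fin.forall_fin_two]
    rfl
  rw [e, h.measure_preimage (MeasurableSet.univ_pi fun i => measurableSet_Icc).nullMeasurableSet,
    volume_pi, Measure.pi_pi, Fin.prod_univ_two]
  simp only [Real.volume_Icc, Matrix.cons_val_zero, Matrix.cons_val_one]
  rw [← ENNReal.ofReal_mul (by linarith)]

lemma abs_coord_le (p q : Plane) (i : Fin 2) : |p i - q i| ≤ dist p q := by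
  have h := PiLp.norm_apply_le (p - q) i
  rw [dist_eq_norm]
  simpa using h

lemma dist_le_coords (p q : Plane) : dist p q ≤ |p 0 - q 0| + |p 1 - q 1| := by
  rw [EuclideanSpace.dist_eq, Fin.sum_univ_two, Real.dist_eq, Real.dist_eq]
  apply Real.sqrt_le_iff.mpr
  constructor
  · positivity
  · have h1 := abs_nonneg (p 0 - q 0)
    have h2 := abs_nonneg (p 1 - q 1)
    nlinarith

/-! ### The radius function -/

section geometry
variable {m n k : ℕ} {c0 φ0 s : ℝ}

/-- `R(τ) = (2kτ + c₀)^(-1/(2k))`. -/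
noncomputable def R (k : ℕ) (c0 τ : ℝ) : ℝ := (2 * k * τ + c0) ^ (-(1 / (2 * k : ℝ)))

/-- The model spiral. -/
def spiral (m n k : ℕ) (c0 φ0 s : ℝ) : Set Plane :=
  {p | ∃ τ : ℝ, 0 ≤ τ ∧ p 0 ^ m = R k c0 τ * Real.cos (φ0 + τ) ∧
    p 1 ^ n = s * (R k c0 τ * Real.sin (φ0 + τ))}

lemma base_pos (hc : 0 < c0) {τ : ℝ} (hτ : 0 ≤ τ) : 0 < 2 * k * τ + c0 := by positivity

lemma R_pos (hc : 0 < c0) {τ : ℝ} (hτ : 0 ≤ τ) : 0 < R k c0 τ :=
  Real.rpow_pos_of_pos (base_pos hc hτ) _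

lemma R_anti (hc : 0 < c0) {τ τ' : ℝ} (hτ : 0 ≤ τ) (h : τ ≤ τ') : R k c0 τ' ≤ R k c0 τ := by
  unfold R
  apply Real.rpow_le_rpow_of_nonpos (base_pos hc hτ)
  · gcongr
  · have : 0 ≤ 1 / (2 * k : ℝ) := by positivity
    linarith

lemma R_pow (hk : 1 ≤ k) (hc : 0 < c0) {τ : ℝ} (hτ : 0 ≤ τ) :
    R k c0 τ ^ (2 * k) = (2 * k * τ + c0)⁻¹ := by
  unfold R
  have hk0 : (0 : ℝ) < k := by exact_mod_cast hk
  rw [← Real.rpow_natCast, ← Real.rpow_mul (base_pos hc hτ).le]
  have : -(1 / (2 * k : ℝ)) * ((2 * k : ℕ) : ℝ) = -1 := by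
    push_cast
    field_simp
  rw [this, Real.rpow_neg_one]

/-- Comparison of the radii at two times. -/
lemma R_diff (hk : 1 ≤ k) (hc : 0 < c0) {τ τ' : ℝ} (hτ : 0 ≤ τ) (h : τ ≤ τ') :
    R k c0 τ - R k c0 τ' ≤ (τ' - τ) * R k c0 τ ^ (2 * k + 1) := by
  have hk0 : (0 : ℝ) < k := by exact_mod_cast hk
  have hτ' : 0 ≤ τ' := hτ.trans h
  have hr := R_pos (k := k) hc hτ
  have hr' := R_pos (k := k) hc hτ'
  have hp := R_pow hk hc hτ
  have hp' := R_pow hk hc hτ'
  have hb := base_pos (k := k) hc hτ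
  have hb' := base_pos (k := k) hc hτ'
  set r := R k c0 τ with hrdef
  set r' := R k c0 τ' with hr'def
  -- `(r / r')^(2k) = 1 + 2k (τ' - τ) r^(2k)`
  have e1 : (r / r') ^ (2 * k) = 1 + 2 * k * (τ' - τ) * r ^ (2 * k) := by
    rw [div_pow, hp, hp']
    field_simp
    ring
  have e2 : (r / r') ^ (2 * k) ≤ (1 + (τ' - τ) * r ^ (2 * k)) ^ (2 * k) := by
    rw [e1]
    have hnn : 0 ≤ (τ' - τ) * r ^ (2 * k) := by
      have : 0 ≤ τ' - τ := by linarith
      positivity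
    have := one_add_mul_le_pow (a := (τ' - τ) * r ^ (2 * k)) (by linarith) (2 * k)
    push_cast at this
    linarith
  have hnn : 0 ≤ (τ' - τ) * r ^ (2 * k) := by
    have : 0 ≤ τ' - τ := by linarith
    positivity
  have e3 : r / r' ≤ 1 + (τ' - τ) * r ^ (2 * k) :=
    (pow_le_pow_iff_left₀ (by positivity) (by positivity) (by omega)).mp e2
  rw [div_le_iff₀ hr'] at e3
  have hle : r' ≤ r := R_anti hc hτ h
  have e4 : (τ' - τ) * r ^ (2 * k) * r' ≤ (τ' - τ) * r ^ (2 * k) * r :=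
    mul_le_mul_of_nonneg_left hle hnn
  have e5 : (τ' - τ) * r ^ (2 * k) * r = (τ' - τ) * r ^ (2 * k + 1) := by ring
  linarith

lemma continuousOn_R (hc : 0 < c0) : ContinuousOn (R k c0) (Ici 0) := by
  intro τ hτ
  unfold R
  apply ContinuousAt.continuousWithinAt
  apply ContinuousAt.rpow_const
  · fun_prop
  · left
    exact (base_pos hc hτ).ne'

/-- The exponent `β = 2k + 1/n`. -/
noncomputable def bet (n k : ℕ) : ℝ := 2 * k + 1 / n

lemma bet_pos (hk : 1 ≤ k) : 0 < bet n k := by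
  have hk0 : (0 : ℝ) < k := by exact_mod_cast hk
  unfold bet
  positivity

/-- The lower bound: a box in the nucleus is contained in the `ε`-neighbourhood. -/
lemma box_subset (hn : Odd n) (hk : 1 ≤ k) (hc : 0 < c0) (hs : s ^ 2 = 1)
    {r : ℝ} (hr : 0 < r) (hr1 : c0 ≤ (r ^ (2 * k))⁻¹) (hr2 : 4 * Real.pi * r ^ (2 * k) ≤ 1 / 4)
    {X Y : ℝ} (hX : 0 ≤ X) (hY : 0 ≤ Y) (hXr : X ^ m ≤ r / 4) (hY1 : r / 2 ≤ Y ^ n)
    (hY2 : Y ^ n ≤ 3 * r / 4) :
    ∃ y : ℝ, !₂[X, s * y] ∈ spiral m n k c0 φ0 s ∧ y ≤ Y ∧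
      (Y - y) * Y ^ (n - 1) ≤ 16 * Real.pi * r ^ (2 * k + 1) := by
  have hpi := Real.pi_pos
  have hk0 : (0 : ℝ) < k := by exact_mod_cast hk
  set U : ℝ := X ^ m with hU
  set V : ℝ := Y ^ n with hV
  have hU0 : 0 ≤ U := by positivity
  have hV0 : 0 < V := by linarith
  set P : ℝ := Real.sqrt (U ^ 2 + V ^ 2) with hP
  have hPsq : P ^ 2 = U ^ 2 + V ^ 2 := Real.sq_sqrt (by positivity)
  have hPV : V ≤ P := by
    apply Real.le_sqrt_of_sq_le
    nlinarith
  have hP0 : 0 < P := by linarith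
  have hPr : P ≤ r := by
    have : P ≤ U + V := by
      apply Real.sqrt_le_iff.mpr
      constructor
      · linarith
      · nlinarith
    linarith
  -- the time with radius `P`
  set τρ : ℝ := ((P ^ (2 * k))⁻¹ - c0) / (2 * k) with hτρ
  have hτρ0 : 0 ≤ τρ := by
    apply div_nonneg _ (by positivity)
    have : (r ^ (2 * k))⁻¹ ≤ (P ^ (2 * k))⁻¹ := by
      apply inv_anti₀ (by positivity)
      exact pow_le_pow_left₀ hP0.le hPr _
    linarith
  have hRτρ : R k c0 τρ = P := by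
    have h1 := R_pow hk hc hτρ0
    have h2 : 2 * k * τρ + c0 = (P ^ (2 * k))⁻¹ := by
      rw [hτρ]
      field_simp
      ring
    rw [h2, inv_inv] at h1
    exact (pow_left_inj₀ (R_pos hc hτρ0).le hP0.le (by omega)).mp h1
  -- the starting time of the arc
  set j : ℤ := ⌈(φ0 + τρ - Real.pi / 4) / (2 * Real.pi)⌉ with hj
  set τa : ℝ := Real.pi / 4 + 2 * Real.pi * j - φ0 with hτa
  have hj1 : φ0 + τρ - Real.pi / 4 ≤ 2 * Real.pi * j := by
    have := Int.le_ceil ((φ0 + τρ - Real.pi / 4) / (2 * Real.pi))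
    rw [← hj, div_le_iff₀ (by positivity)] at this
    linarith
  have hj2 : 2 * Real.pi * j < φ0 + τρ - Real.pi / 4 + 2 * Real.pi := by
    have := Int.ceil_lt_add_one ((φ0 + τρ - Real.pi / 4) / (2 * Real.pi))
    rw [← hj] at this
    have h3 : (φ0 + τρ - Real.pi / 4) / (2 * Real.pi) + 1 =
        (φ0 + τρ - Real.pi / 4 + 2 * Real.pi) / (2 * Real.pi) := by field_simp
    rw [h3, lt_div_iff₀ (by positivity)] at this
    linarith
  have ha1 : τρ ≤ τa := by rw [hτa]; linarith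
  have ha2 : τa < τρ + 2 * Real.pi := by rw [hτa]; linarith
  set τb : ℝ := τa + Real.pi / 2 with hτb
  have hτa0 : 0 ≤ τa := hτρ0.trans ha1
  -- values at the end points
  have hcosa : Real.cos (φ0 + τa) = Real.sqrt 2 / 2 := by
    have : φ0 + τa = Real.pi / 4 + j * (2 * Real.pi) := by rw [hτa]; ring
    rw [this, Real.cos_add_int_mul_two_pi, Real.cos_pi_div_four]
  have hcosb : Real.cos (φ0 + τb) ≤ 0 := by
    have : φ0 + τb = (Real.pi / 4 + Real.pi / 2) + j * (2 * Real.pi) := by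
      rw [hτb, hτa]; ring
    rw [this, Real.cos_add_int_mul_two_pi]
    apply Real.cos_nonpos_of_pi_div_two_le_of_le <;> linarith
  have hsmall : ∀ τ, τρ ≤ τ → τ ≤ τρ + 4 * Real.pi → P - R k c0 τ ≤ 4 * Real.pi * P ^ (2 * k + 1) := by
    intro τ h1 h2
    have h3 := R_diff hk hc hτρ0 h1
    rw [hRτρ] at h3
    calc P - R k c0 τ ≤ (τ - τρ) * P ^ (2 * k + 1) := h3
      _ ≤ 4 * Real.pi * P ^ (2 * k + 1) := by
          have : τ - τρ ≤ 4 * Real.pi := by linarith
          gcongr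
  have hP2k : P ^ (2 * k) ≤ r ^ (2 * k) := pow_le_pow_left₀ hP0.le hPr _
  have hquarter : 4 * Real.pi * P ^ (2 * k + 1) ≤ P / 4 := by
    rw [pow_succ]
    have : 4 * Real.pi * P ^ (2 * k) ≤ 1 / 4 := by
      calc 4 * Real.pi * P ^ (2 * k) ≤ 4 * Real.pi * r ^ (2 * k) := by gcongr
        _ ≤ 1 / 4 := hr2
    nlinarith
  have hUP : U ≤ P / 2 := by linarith
  have hRa : U ≤ R k c0 τa * Real.cos (φ0 + τa) := by
    rw [hcosa]
    have h1 := hsmall τa ha1 (by linarith)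
    have h2 : 3 / 4 * P ≤ R k c0 τa := by linarith
    have h3 : (1.4 : ℝ) ≤ Real.sqrt 2 := by
      apply Real.le_sqrt_of_sq_le
      norm_num
    have h4 : 0.7 ≤ Real.sqrt 2 / 2 := by linarith
    calc U ≤ P / 2 := hUP
      _ ≤ (3 / 4 * P) * 0.7 := by nlinarith
      _ ≤ R k c0 τa * (Real.sqrt 2 / 2) := by
          apply mul_le_mul h2 h4 (by norm_num) (R_pos hc hτa0).le
  have hRb : R k c0 τb * Real.cos (φ0 + τb) ≤ U := by
    have h1 := R_pos (k := k) hc (show 0 ≤ τb by linarith)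
    have h2 : R k c0 τb * Real.cos (φ0 + τb) ≤ 0 := mul_nonpos_of_nonneg_of_nonpos h1.le hcosb
    linarith
  have hcont : ContinuousOn (fun τ => R k c0 τ * Real.cos (φ0 + τ)) (Icc τa τb) := by
    apply ContinuousOn.mul
    · exact (continuousOn_R hc).mono fun τ hτ => hτa0.trans hτ.1
    · fun_prop
  obtain ⟨τ, hτ, hτU⟩ := intermediate_value_Icc' (by linarith : τa ≤ τb) hcont ⟨hRb, hRa⟩
  simp only at hτU
  have hτ0 : 0 ≤ τ := hτa0.trans hτ.1
  have hτρτ : τρ ≤ τ := ha1.trans hτ.1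
  set V' : ℝ := R k c0 τ * Real.sin (φ0 + τ) with hV'
  have hsin : 0 ≤ Real.sin (φ0 + τ) := by
    have h1 : Real.sin (φ0 + τ) = Real.sin (φ0 + τ - j * (2 * Real.pi)) :=
      (Real.sin_sub_int_mul_two_pi _ _).symm
    rw [h1]
    apply Real.sin_nonneg_of_nonneg_of_le_pi
    · have := hτ.1
      rw [hτa] at this
      linarith
    · have := hτ.2
      rw [hτb, hτa] at this
      linarith
  have hRτ := R_pos (k := k) hc hτ0
  have hV'0 : 0 ≤ V' := mul_nonneg hRτ.le hsin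
  have hcs := Real.cos_sq_add_sin_sq (φ0 + τ)
  have hV'sq : V' ^ 2 = R k c0 τ ^ 2 - U ^ 2 := by
    rw [← hτU, hV']
    linear_combination (R k c0 τ) ^ 2 * hcs
  have hRP : R k c0 τ ≤ P := by
    rw [← hRτρ]
    exact R_anti hc hτρ0 hτρτ
  have hV'V : V' ≤ V := by
    have h1 : V' ^ 2 ≤ V ^ 2 := by
      rw [hV'sq]
      have : R k c0 τ ^ 2 ≤ P ^ 2 := pow_le_pow_left₀ hRτ.le hRP 2
      linarith
    exact (pow_le_pow_iff_left₀ hV'0 hV0.le (by norm_num)).mp h1
  have hdiffV : V - V' ≤ 16 * Real.pi * r ^ (2 * k + 1) := by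
    have h1 : (V - V') * V ≤ (V - V') * (V + V') := by
      apply mul_le_mul_of_nonneg_left _ (by linarith)
      linarith
    have h2 : (V - V') * (V + V') = P ^ 2 - R k c0 τ ^ 2 := by
      rw [hPsq]
      linear_combination -hV'sq
    have h3 : P ^ 2 - R k c0 τ ^ 2 ≤ 2 * P * (4 * Real.pi * P ^ (2 * k + 1)) := by
      have h4 := hsmall τ hτρτ (by
        have := hτ.2
        rw [hτb] at this
        linarith)
      have h5 : P ^ 2 - R k c0 τ ^ 2 = (P - R k c0 τ) * (P + R k c0 τ) := by ring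
      rw [h5]
      have h6 : 0 ≤ P - R k c0 τ := by linarith
      calc (P - R k c0 τ) * (P + R k c0 τ) ≤ (P - R k c0 τ) * (2 * P) := by
            apply mul_le_mul_of_nonneg_left _ h6
            linarith
        _ ≤ (4 * Real.pi * P ^ (2 * k + 1)) * (2 * P) := by gcongr
        _ = _ := by ring
    have h7 : 2 * P * (4 * Real.pi * P ^ (2 * k + 1)) ≤ 8 * Real.pi * r ^ (2 * k + 1) * r := by
      have : P ^ (2 * k + 1) ≤ r ^ (2 * k + 1) := pow_le_pow_left₀ hP0.le hPr _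
      calc 2 * P * (4 * Real.pi * P ^ (2 * k + 1)) ≤ 2 * r * (4 * Real.pi * r ^ (2 * k + 1)) := by
            gcongr
        _ = _ := by ring
    have h8 : (V - V') * V ≤ 16 * Real.pi * r ^ (2 * k + 1) * V := by
      calc (V - V') * V ≤ 8 * Real.pi * r ^ (2 * k + 1) * r := by linarith
        _ = 16 * Real.pi * r ^ (2 * k + 1) * (r / 2) := by ring
        _ ≤ 16 * Real.pi * r ^ (2 * k + 1) * V := by gcongr
    exact le_of_mul_le_mul_right h8 hV0
  -- the `n`-th root of `V'`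
  have hn0 : n ≠ 0 := by
    rintro rfl
    exact absurd hn (by decide)
  set y : ℝ := V' ^ (1 / (n : ℝ)) with hy
  have hy0 : 0 ≤ y := Real.rpow_nonneg hV'0 _
  have hyn : y ^ n = V' := by
    rw [hy, one_div]
    exact Real.rpow_inv_natCast_pow hV'0 hn0
  have hyY : y ≤ Y := by
    apply (pow_le_pow_iff_left₀ hy0 hY hn0).mp
    rw [hyn]
    exact hV'V
  refine ⟨y, ⟨τ, hτ0, ?_, ?_⟩, hyY, ?_⟩
  · change X ^ m = _
    exact hτU.symm
  · change (s * y) ^ n = _
    have hsn : s ^ n = s := by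
      obtain ⟨l, hl⟩ := hn
      rw [hl, pow_succ, pow_mul, hs, one_pow, one_mul]
    rw [mul_pow, hsn, hyn]
  · have h1 : Y ^ n = Y * Y ^ (n - 1) := by
      rw [← pow_succ']
      congr 1
      omega
    have h2 : y ^ n = y * y ^ (n - 1) := by
      rw [← pow_succ']
      congr 1
      omega
    have h3 : y ^ (n - 1) ≤ Y ^ (n - 1) := pow_le_pow_left₀ hy0 hyY _
    have h4 : y * y ^ (n - 1) ≤ y * Y ^ (n - 1) := mul_le_mul_of_nonneg_left h3 hy0
    calc (Y - y) * Y ^ (n - 1) = Y * Y ^ (n - 1) - y * Y ^ (n - 1) := by ring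
      _ ≤ Y ^ n - y ^ n := by rw [h1, h2]; linarith
      _ = V - V' := by rw [hyn]
      _ ≤ _ := hdiffV


/-- The lower bound for the measure of the neighbourhood. -/
lemma lower_measure (hm : Odd m) (hn : Odd n) (hk : 1 ≤ k) (hc : 0 < c0) (hs : s ^ 2 = 1)
    {r ε : ℝ} (hr : 0 < r) (hr1 : c0 ≤ (r ^ (2 * k))⁻¹)
    (hr2 : 4 * Real.pi * r ^ (2 * k) ≤ 1 / 4)
    (hε : 32 * Real.pi * r ^ (bet n k) ≤ ε) :
    ENNReal.ofReal ((r / 4) ^ (1 / (m : ℝ)) *
      ((3 * r / 4) ^ (1 / (n : ℝ)) - (r / 2) ^ (1 / (n : ℝ)))) ≤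
      volume (Metric.cthickening ε (spiral m n k c0 φ0 s)) := by
  have hn0 : n ≠ 0 := by
    rintro rfl
    exact absurd hn (by decide)
  have hm0 : m ≠ 0 := by
    rintro rfl
    exact absurd hm (by decide)
  have hn0' : (0 : ℝ) < n := by exact_mod_cast Nat.pos_of_ne_zero hn0
  have hm0' : (0 : ℝ) < m := by exact_mod_cast Nat.pos_of_ne_zero hm0
  have hpi := Real.pi_pos
  set A : ℝ := (r / 4) ^ (1 / (m : ℝ)) with hA
  set B1 : ℝ := (r / 2) ^ (1 / (n : ℝ)) with hB1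
  set B2 : ℝ := (3 * r / 4) ^ (1 / (n : ℝ)) with hB2
  have hA0 : 0 < A := by positivity
  have hB10 : 0 < B1 := by positivity
  have hB12 : B1 ≤ B2 := by
    apply Real.rpow_le_rpow (by positivity) (by linarith) (by positivity)
  have hAm : A ^ m = r / 4 := by
    rw [hA, one_div]
    exact Real.rpow_inv_natCast_pow (by positivity) hm0
  have hB1n : B1 ^ n = r / 2 := by
    rw [hB1, one_div]
    exact Real.rpow_inv_natCast_pow (by positivity) hn0
  have hB2n : B2 ^ n = 3 * r / 4 := by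
    rw [hB2, one_div]
    exact Real.rpow_inv_natCast_pow (by positivity) hn0
  -- pointwise statement
  have key : ∀ X Y : ℝ, X ∈ Icc 0 A → Y ∈ Icc B1 B2 →
      !₂[X, s * Y] ∈ Metric.cthickening ε (spiral m n k c0 φ0 s) := by
    intro X Y hX hY
    have hY0 : 0 < Y := lt_of_lt_of_le hB10 hY.1
    have h1 : X ^ m ≤ r / 4 := by
      rw [← hAm]
      exact pow_le_pow_left₀ hX.1 hX.2 m
    have h2 : r / 2 ≤ Y ^ n := by
      rw [← hB1n]
      exact pow_le_pow_left₀ hB10.le hY.1 n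
    have h3 : Y ^ n ≤ 3 * r / 4 := by
      rw [← hB2n]
      exact pow_le_pow_left₀ hY0.le hY.2 n
    obtain ⟨y, hy1, hy2, hy3⟩ :=
      box_subset (φ0 := φ0) hn hk hc hs hr hr1 hr2 hX.1 hY0.le h1 h2 h3
    apply Metric.mem_cthickening_of_dist_le _ _ _ _ hy1
    have h4 := dist_le_coords !₂[X, s * Y] !₂[X, s * y]
    have h5 : |(!₂[X, s * Y] : Plane) 0 - (!₂[X, s * y] : Plane) 0| = 0 := by
      change |X - X| = 0
      simp
    have h6 : |(!₂[X, s * Y] : Plane) 1 - (!₂[X, s * y] : Plane) 1| = Y - y := by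
      change |s * Y - s * y| = Y - y
      have hsabs : |s| = 1 := by
        have h7 : |s| ^ 2 = 1 := by rw [sq_abs]; exact hs
        nlinarith [abs_nonneg s]
      rw [← mul_sub, abs_mul, hsabs, one_mul, abs_of_nonneg (by linarith)]
    rw [h5, h6, zero_add] at h4
    refine h4.trans (le_trans ?_ hε)
    -- `Y - y ≤ 16 π r^(2k+1) / Y^(n-1)`
    have hYn1 : r / 2 ≤ Y ^ (n - 1) * r ^ (1 / (n : ℝ)) := by
      have h7 : Y ≤ r ^ (1 / (n : ℝ)) := by
        calc Y ≤ B2 := hY.2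
          _ ≤ r ^ (1 / (n : ℝ)) := by
              apply Real.rpow_le_rpow (by positivity) (by linarith) (by positivity)
      calc r / 2 ≤ Y ^ n := h2
        _ = Y ^ (n - 1) * Y := by
            rw [← pow_succ]
            congr 1
            omega
        _ ≤ Y ^ (n - 1) * r ^ (1 / (n : ℝ)) := by gcongr
    have h8 : (Y - y) * (r / 2) ≤ 16 * Real.pi * r ^ (2 * k + 1) * r ^ (1 / (n : ℝ)) := by
      calc (Y - y) * (r / 2) ≤ (Y - y) * (Y ^ (n - 1) * r ^ (1 / (n : ℝ))) := by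
            apply mul_le_mul_of_nonneg_left hYn1 (by linarith)
        _ = ((Y - y) * Y ^ (n - 1)) * r ^ (1 / (n : ℝ)) := by ring
        _ ≤ _ := by gcongr
    have h9 : 16 * Real.pi * r ^ (2 * k + 1) * r ^ (1 / (n : ℝ)) =
        (32 * Real.pi * r ^ (bet n k)) * (r / 2) := by
      have e : r ^ (bet n k) = r ^ (2 * k) * r ^ (1 / (n : ℝ)) := by
        unfold bet
        rw [Real.rpow_add hr]
        congr 1
        rw [← Real.rpow_natCast]
        push_cast
        rfl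
      rw [e, pow_succ]
      ring
    rw [h9] at h8
    exact le_of_mul_le_mul_right h8 (by positivity)
  -- the box
  have hs1 : s = 1 ∨ s = -1 := by
    have : (s - 1) * (s + 1) = 0 := by nlinarith
    rcases mul_eq_zero.mp this with h | h
    · left; linarith
    · right; linarith
  rcases hs1 with h1 | h1
  · have hsub : box 0 A B1 B2 ⊆ Metric.cthickening ε (spiral m n k c0 φ0 s) := by
      intro p hp
      have h2 := key (p 0) (p 1) hp.1 hp.2
      rw [h1, one_mul] at h2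
      have h3 : (!₂[p 0, p 1] : Plane) = p := by
        ext i
        fin_cases i <;> rfl
      rw [h3] at h2
      rw [h1]
      exact h2
    calc _ = volume (box 0 A B1 B2) := by
          rw [volume_box hA0.le, sub_zero]
      _ ≤ _ := measure_mono hsub
  · have hsub : box 0 A (-B2) (-B1) ⊆ Metric.cthickening ε (spiral m n k c0 φ0 s) := by
      intro p hp
      have h2 := key (p 0) (-(p 1)) hp.1 ⟨by linarith [hp.2.2], by linarith [hp.2.1]⟩
      rw [h1] at h2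
      have h3 : (!₂[p 0, -1 * -(p 1)] : Plane) = p := by
        ext i
        fin_cases i
        · rfl
        · change -1 * -(p 1) = p 1
          ring
      rw [h3] at h2
      rw [h1]
      exact h2
    calc _ = volume (box 0 A (-B2) (-B1)) := by
          rw [volume_box hA0.le, sub_zero]
          congr 2
          ring
      _ ≤ _ := measure_mono hsub

end geometry


section upper
variable {m n k : ℕ} {c0 φ0 s : ℝ}

/-- A curve with a clock of total length `V` has a small neighbourhood. -/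
lemma cover_clock {f : ℝ → Plane} {D : Set ℝ} {Λ : ℝ → ℝ} {V ε : ℝ} (hε : 0 < ε)
    (h0 : ∀ t ∈ D, 0 ≤ Λ t) (hV : ∀ t ∈ D, Λ t ≤ V)
    (hf : ∀ t ∈ D, ∀ t' ∈ D, dist (f t) (f t') ≤ |Λ t - Λ t'|) :
    volume {p : Plane | ∃ t ∈ D, dist p (f t) ≤ 2 * ε} ≤
      ENNReal.ofReal ((V / ε + 1) * (36 * ε ^ 2)) := by
  classical
  rcases D.eq_empty_or_nonempty with hD | ⟨t0, ht0⟩
  · subst hD
    simp
  have hV0 : 0 ≤ V := (h0 t0 ht0).trans (hV t0 ht0)
  set N : ℕ := ⌊V / ε⌋₊ + 1 with hN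
  have hex : ∀ i : ℕ, ∃ c : Plane, ∀ t ∈ D, ⌊Λ t / ε⌋₊ = i → dist (f t) c ≤ ε := by
    intro i
    by_cases h : ∃ t ∈ D, ⌊Λ t / ε⌋₊ = i
    · obtain ⟨t1, ht1, hi1⟩ := h
      refine ⟨f t1, fun t ht hi => (hf t ht t1 ht1).trans ?_⟩
      have a1 := Nat.floor_le (div_nonneg (h0 t ht) hε.le)
      have a2 := Nat.lt_floor_add_one (Λ t / ε)
      have b1 := Nat.floor_le (div_nonneg (h0 t1 ht1) hε.le)
      have b2 := Nat.lt_floor_add_one (Λ t1 / ε)
      rw [hi] at a1 a2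
      rw [hi1] at b1 b2
      rw [le_div_iff₀ hε] at a1 b1
      rw [div_lt_iff₀ hε] at a2 b2
      rw [abs_le]
      constructor <;> nlinarith
    · exact ⟨0, fun t ht hi => absurd ⟨t, ht, hi⟩ h⟩
  choose c hc using hex
  have hsub : {p : Plane | ∃ t ∈ D, dist p (f t) ≤ 2 * ε} ⊆
      ⋃ i ∈ Finset.range N, box (c i 0 - 3 * ε) (c i 0 + 3 * ε) (c i 1 - 3 * ε) (c i 1 + 3 * ε) := by
    rintro p ⟨t, ht, hp⟩
    have hi : ⌊Λ t / ε⌋₊ ∈ Finset.range N := by
      rw [Finset.mem_range, hN, Nat.lt_succ_iff]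
      apply Nat.floor_le_floor
      gcongr
      exact hV t ht
    refine mem_iUnion₂.mpr ⟨_, hi, ?_⟩
    have h1 := hc _ t ht rfl
    have h2 : dist p (c ⌊Λ t / ε⌋₊) ≤ 3 * ε := by
      have := dist_triangle p (f t) (c ⌊Λ t / ε⌋₊)
      linarith
    have h3 := abs_le.mp ((abs_coord_le p (c ⌊Λ t / ε⌋₊) 0).trans h2)
    have h4 := abs_le.mp ((abs_coord_le p (c ⌊Λ t / ε⌋₊) 1).trans h2)
    refine ⟨⟨?_, ?_⟩, ⟨?_, ?_⟩⟩ <;> linarith
  calc volume {p : Plane | ∃ t ∈ D, dist p (f t) ≤ 2 * ε}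
      ≤ volume (⋃ i ∈ Finset.range N,
          box (c i 0 - 3 * ε) (c i 0 + 3 * ε) (c i 1 - 3 * ε) (c i 1 + 3 * ε)) := measure_mono hsub
    _ ≤ ∑ i ∈ Finset.range N,
          volume (box (c i 0 - 3 * ε) (c i 0 + 3 * ε) (c i 1 - 3 * ε) (c i 1 + 3 * ε)) :=
        measure_biUnion_finset_le _ _
    _ = ∑ _i ∈ Finset.range N, ENNReal.ofReal (36 * ε ^ 2) := by
        apply Finset.sum_congr rfl
        intro i _
        rw [volume_box (by linarith)]
        congr 1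
        ring
    _ = ENNReal.ofReal (N * (36 * ε ^ 2)) := by
        rw [Finset.sum_const, Finset.card_range, nsmul_eq_mul,
          ENNReal.ofReal_mul (Nat.cast_nonneg N), ENNReal.ofReal_natCast]
    _ ≤ ENNReal.ofReal ((V / ε + 1) * (36 * ε ^ 2)) := by
        apply ENNReal.ofReal_le_ofReal
        have : (N : ℝ) ≤ V / ε + 1 := by
          rw [hN]
          push_cast
          have := Nat.floor_le (div_nonneg hV0 hε.le)
          linarith
        gcongr

/-! ### Signed roots -/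

/-- The signed `m`-th root. -/
noncomputable def rt (m : ℕ) (z : ℝ) : ℝ :=
  if 0 ≤ z then z ^ (1 / (m : ℝ)) else -((-z) ^ (1 / (m : ℝ)))

lemma rt_pow (hm : Odd m) (z : ℝ) : rt m z ^ m = z := by
  have hm0 : m ≠ 0 := by
    rintro rfl
    exact absurd hm (by decide)
  unfold rt
  split_ifs with h
  · rw [one_div]
    exact Real.rpow_inv_natCast_pow h hm0
  · rw [hm.neg_pow, one_div, Real.rpow_inv_natCast_pow (by linarith) hm0]
    ring

lemma rt_mono (hm : Odd m) {z w : ℝ} (h : z ≤ w) : rt m z ≤ rt m w := by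
  rw [← hm.strictMono_pow.le_iff_le, rt_pow hm, rt_pow hm]
  exact h

lemma rt_neg (hm : Odd m) (z : ℝ) : rt m (-z) = -rt m z := by
  apply hm.strictMono_pow.injective
  simp only
  rw [rt_pow hm, hm.neg_pow, rt_pow hm]

lemma rt_one (hm : Odd m) : rt m 1 = 1 := by
  apply hm.strictMono_pow.injective
  simp only
  rw [rt_pow hm, one_pow]

lemma rt_zero (hm : Odd m) : rt m 0 = 0 := by
  have := rt_neg hm 0
  rw [neg_zero] at this
  linarith

lemma abs_rt_le (hm : Odd m) {z : ℝ} (hz : |z| ≤ 1) : |rt m z| ≤ 1 := by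
  rw [abs_le] at hz ⊢
  constructor
  · have := rt_mono hm hz.1
    rw [rt_neg hm, rt_one hm] at this
    exact this
  · have := rt_mono hm hz.2
    rw [rt_one hm] at this
    exact this

lemma abs_rt_sub_sign (hm : Odd m) {e : ℝ} (he : e = 1 ∨ e = -1) (z w : ℝ) :
    |rt m (e * z) - rt m (e * w)| = |rt m z - rt m w| := by
  rcases he with rfl | rfl
  · simp
  · rw [neg_one_mul, neg_one_mul, rt_neg hm, rt_neg hm, ← abs_neg]
    congr 1
    ring

/-- The clock of a quadrant. -/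
noncomputable def M (m : ℕ) (α : ℝ) : ℝ := rt m (Real.sin α) - rt m (Real.cos α)

lemma M_bounds (hm : Odd m) {α α' : ℝ} (h0 : 0 ≤ α) (h : α ≤ α') (h1 : α' ≤ Real.pi / 2) :
    |rt m (Real.cos α) - rt m (Real.cos α')| ≤ M m α' - M m α ∧
      |rt m (Real.sin α) - rt m (Real.sin α')| ≤ M m α' - M m α := by
  have hpi := Real.pi_pos
  have hc : Real.cos α' ≤ Real.cos α := Real.cos_le_cos_of_nonneg_of_le_pi h0 (by linarith) h
  have hs : Real.sin α ≤ Real.sin α' :=
    Real.sin_le_sin_of_le_of_le_pi_div_two (by linarith) h1 h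
  have hc2 := rt_mono hm hc
  have hs2 := rt_mono hm hs
  unfold M
  constructor
  · rw [abs_of_nonneg (by linarith)]
    linarith
  · rw [abs_sub_comm, abs_of_nonneg (by linarith)]
    linarith

lemma M_ge (hm : Odd m) {α : ℝ} (h0 : 0 ≤ α) (h1 : α ≤ Real.pi / 2) : -1 ≤ M m α := by
  have h := (M_bounds hm le_rfl h0 h1).1
  have h2 := abs_nonneg (rt m (Real.cos 0) - rt m (Real.cos α))
  have h3 : M m 0 = -1 := by
    unfold M
    rw [Real.sin_zero, Real.cos_zero, rt_zero hm, rt_one hm]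
    ring
  rw [h3] at h
  linarith

lemma M_le (hm : Odd m) {α : ℝ} (h0 : 0 ≤ α) (h1 : α ≤ Real.pi / 2) : M m α ≤ 1 := by
  have h := (M_bounds hm h0 h1 le_rfl).1
  have h2 := abs_nonneg (rt m (Real.cos α) - rt m (Real.cos (Real.pi / 2)))
  have h3 : M m (Real.pi / 2) = 1 := by
    unfold M
    rw [Real.sin_pi_div_two, Real.cos_pi_div_two, rt_zero hm, rt_one hm]
    ring
  rw [h3] at h
  linarith

/-- Rotation by a multiple of a right angle. -/
lemma quadrant (i : ℕ) : ∃ e1 e2 : ℝ, (e1 = 1 ∨ e1 = -1) ∧ (e2 = 1 ∨ e2 = -1) ∧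
    ((∀ α, Real.cos (i * (Real.pi / 2) + α) = e1 * Real.cos α ∧
        Real.sin (i * (Real.pi / 2) + α) = e2 * Real.sin α) ∨
      (∀ α, Real.cos (i * (Real.pi / 2) + α) = e1 * Real.sin α ∧
        Real.sin (i * (Real.pi / 2) + α) = e2 * Real.cos α)) := by
  induction i with
  | zero => exact ⟨1, 1, Or.inl rfl, Or.inl rfl, Or.inl fun α => by simp⟩
  | succ i ih =>
    obtain ⟨e1, e2, h1, h2, h⟩ := ih
    have hc : ∀ α, Real.cos ((i + 1 : ℕ) * (Real.pi / 2) + α) =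
        -Real.sin (i * (Real.pi / 2) + α) := by
      intro α
      rw [← Real.cos_add_pi_div_two]
      congr 1
      push_cast
      ring
    have hs : ∀ α, Real.sin ((i + 1 : ℕ) * (Real.pi / 2) + α) =
        Real.cos (i * (Real.pi / 2) + α) := by
      intro α
      rw [← Real.sin_add_pi_div_two]
      congr 1
      push_cast
      ring
    refine ⟨-e2, e1, ?_, h1, ?_⟩
    · rcases h2 with h | h
      · right; rw [h]
      · left; rw [h]; ring
    · rcases h with h | h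
      · right
        intro α
        rw [hc, hs, (h α).1, (h α).2]
        exact ⟨by ring, rfl⟩
      · left
        intro α
        rw [hc, hs, (h α).1, (h α).2]
        exact ⟨by ring, rfl⟩

/-- Both coordinates of the unit curve are controlled by the clock in each quadrant. -/
lemma quadrant_bound (hm : Odd m) (i : ℕ) {α α' : ℝ} (h0 : 0 ≤ α) (h : α ≤ α')
    (h1 : α' ≤ Real.pi / 2) :
    |rt m (Real.cos (i * (Real.pi / 2) + α)) - rt m (Real.cos (i * (Real.pi / 2) + α'))| ≤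
        M m α' - M m α ∧
      |rt m (Real.sin (i * (Real.pi / 2) + α)) - rt m (Real.sin (i * (Real.pi / 2) + α'))| ≤
        M m α' - M m α := by
  obtain ⟨e1, e2, he1, he2, hq⟩ := quadrant i
  have hb := M_bounds hm h0 h h1
  rcases hq with hq | hq
  · rw [(hq α).1, (hq α').1, (hq α).2, (hq α').2, abs_rt_sub_sign hm he1, abs_rt_sub_sign hm he2]
    exact hb
  · rw [(hq α).1, (hq α').1, (hq α).2, (hq α').2, abs_rt_sub_sign hm he1, abs_rt_sub_sign hm he2]
    exact ⟨hb.2, hb.1⟩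

/-- The parametrization of the model spiral. -/
noncomputable def crv (m n k : ℕ) (c0 φ0 s τ : ℝ) : Plane :=
  !₂[R k c0 τ ^ (1 / (m : ℝ)) * rt m (Real.cos (φ0 + τ)),
    s * (R k c0 τ ^ (1 / (n : ℝ)) * rt n (Real.sin (φ0 + τ)))]

lemma pow_signed (hn : Odd n) (hs : s = 1 ∨ s = -1) : s ^ n = s := by
  rcases hs with rfl | rfl
  · exact one_pow n
  · exact hn.neg_one_pow

lemma spiral_eq (hm : Odd m) (hn : Odd n) (hc : 0 < c0) (hs : s = 1 ∨ s = -1) {p : Plane}
    {τ : ℝ} (hτ : 0 ≤ τ) (h0 : p 0 ^ m = R k c0 τ * Real.cos (φ0 + τ))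
    (h1 : p 1 ^ n = s * (R k c0 τ * Real.sin (φ0 + τ))) : p = crv m n k c0 φ0 s τ := by
  have hm0 : m ≠ 0 := by
    rintro rfl
    exact absurd hm (by decide)
  have hn0 : n ≠ 0 := by
    rintro rfl
    exact absurd hn (by decide)
  have hR := R_pos (k := k) hc hτ
  ext i
  fin_cases i
  · change p 0 = R k c0 τ ^ (1 / (m : ℝ)) * rt m (Real.cos (φ0 + τ))
    apply hm.strictMono_pow.injective
    simp only
    rw [mul_pow, rt_pow hm, one_div, Real.rpow_inv_natCast_pow hR.le hm0, h0]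
  · change p 1 = s * (R k c0 τ ^ (1 / (n : ℝ)) * rt n (Real.sin (φ0 + τ)))
    apply hn.strictMono_pow.injective
    simp only
    rw [mul_pow, mul_pow, rt_pow hn, one_div, Real.rpow_inv_natCast_pow hR.le hn0, h1,
      pow_signed hn hs]

/-- The clock estimate within a quadrant. -/
lemma crv_dist (hm : Odd m) (hn : Odd n) (hc : 0 < c0) (hs : s = 1 ∨ s = -1) (i : ℕ)
    {τ τ' A : ℝ} (hτ : 0 ≤ τ) (h : τ ≤ τ') (h1 : (i : ℝ) * (Real.pi / 2) ≤ φ0 + τ)
    (h2 : φ0 + τ' ≤ (i + 1) * (Real.pi / 2)) (hA1 : R k c0 τ ^ (1 / (m : ℝ)) ≤ A)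
    (hA2 : R k c0 τ ^ (1 / (n : ℝ)) ≤ A) :
    dist (crv m n k c0 φ0 s τ) (crv m n k c0 φ0 s τ') ≤
      (A * (M m (φ0 + τ' - i * (Real.pi / 2)) + M n (φ0 + τ' - i * (Real.pi / 2))) -
        R k c0 τ' ^ (1 / (m : ℝ)) - R k c0 τ' ^ (1 / (n : ℝ))) -
      (A * (M m (φ0 + τ - i * (Real.pi / 2)) + M n (φ0 + τ - i * (Real.pi / 2))) -
        R k c0 τ ^ (1 / (m : ℝ)) - R k c0 τ ^ (1 / (n : ℝ))) := by
  have hτ' : 0 ≤ τ' := hτ.trans h
  have hR := R_pos (k := k) hc hτ
  have hR' := R_pos (k := k) hc hτ'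
  have hRR := R_anti (k := k) hc hτ h
  set α := φ0 + τ - i * (Real.pi / 2) with hα
  set α' := φ0 + τ' - i * (Real.pi / 2) with hα'
  have e1 : φ0 + τ = i * (Real.pi / 2) + α := by rw [hα]; ring
  have e2 : φ0 + τ' = i * (Real.pi / 2) + α' := by rw [hα']; ring
  have hα0 : 0 ≤ α := by rw [hα]; linarith
  have hαα : α ≤ α' := by rw [hα, hα']; linarith
  have hα1 : α' ≤ Real.pi / 2 := by rw [hα']; linarith
  have hbm := (quadrant_bound hm i hα0 hαα hα1).1
  have hbn := (quadrant_bound hn i hα0 hαα hα1).2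
  rw [← e1, ← e2] at hbm hbn
  have hcos : |rt m (Real.cos (φ0 + τ'))| ≤ 1 := abs_rt_le hm (Real.abs_cos_le_one _)
  have hsin : |rt n (Real.sin (φ0 + τ'))| ≤ 1 := abs_rt_le hn (Real.abs_sin_le_one _)
  set a := R k c0 τ ^ (1 / (m : ℝ)) with ha
  set a' := R k c0 τ' ^ (1 / (m : ℝ)) with ha'
  set b := R k c0 τ ^ (1 / (n : ℝ)) with hb
  set b' := R k c0 τ' ^ (1 / (n : ℝ)) with hb'
  have haa : a' ≤ a := Real.rpow_le_rpow hR'.le hRR (by positivity)
  have hbb : b' ≤ b := Real.rpow_le_rpow hR'.le hRR (by positivity)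
  have ha0 : 0 ≤ a := by positivity
  have hb0 : 0 ≤ b := by positivity
  set u := rt m (Real.cos (φ0 + τ)) with hu
  set u' := rt m (Real.cos (φ0 + τ')) with hu'
  set w := rt n (Real.sin (φ0 + τ)) with hw
  set w' := rt n (Real.sin (φ0 + τ')) with hw'
  have hx : |a * u - a' * u'| ≤ A * (M m α' - M m α) + (a - a') := by
    have e : a * u - a' * u' = a * (u - u') + (a - a') * u' := by ring
    rw [e]
    calc |a * (u - u') + (a - a') * u'| ≤ |a * (u - u')| + |(a - a') * u'| := abs_add_le _ _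
      _ = a * |u - u'| + (a - a') * |u'| := by
          rw [abs_mul, abs_mul, abs_of_nonneg ha0, abs_of_nonneg (by linarith : 0 ≤ a - a')]
      _ ≤ A * (M m α' - M m α) + (a - a') * 1 := by
          have h0 : 0 ≤ a - a' := by linarith
          have h3 : a * |u - u'| ≤ A * (M m α' - M m α) :=
            mul_le_mul hA1 hbm (abs_nonneg _) (ha0.trans hA1)
          have h4 : (a - a') * |u'| ≤ (a - a') * 1 := mul_le_mul_of_nonneg_left hcos h0
          linarith
      _ = _ := by ring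
  have hy : |b * w - b' * w'| ≤ A * (M n α' - M n α) + (b - b') := by
    have e : b * w - b' * w' = b * (w - w') + (b - b') * w' := by ring
    rw [e]
    calc |b * (w - w') + (b - b') * w'| ≤ |b * (w - w')| + |(b - b') * w'| := abs_add_le _ _
      _ = b * |w - w'| + (b - b') * |w'| := by
          rw [abs_mul, abs_mul, abs_of_nonneg hb0, abs_of_nonneg (by linarith : 0 ≤ b - b')]
      _ ≤ A * (M n α' - M n α) + (b - b') * 1 := by
          have h0 : 0 ≤ b - b' := by linarith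
          have h3 : b * |w - w'| ≤ A * (M n α' - M n α) :=
            mul_le_mul hA2 hbn (abs_nonneg _) (hb0.trans hA2)
          have h4 : (b - b') * |w'| ≤ (b - b') * 1 := mul_le_mul_of_nonneg_left hsin h0
          linarith
      _ = _ := by ring
  have hd := dist_le_coords (crv m n k c0 φ0 s τ) (crv m n k c0 φ0 s τ')
  have e0 : |(crv m n k c0 φ0 s τ) 0 - (crv m n k c0 φ0 s τ') 0| = |a * u - a' * u'| := rfl
  have e3 : |(crv m n k c0 φ0 s τ) 1 - (crv m n k c0 φ0 s τ') 1| = |b * w - b' * w'| := by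
    change |s * (b * w) - s * (b' * w')| = _
    rw [← mul_sub, abs_mul]
    rcases hs with rfl | rfl <;> simp
  rw [e0, e3] at hd
  linarith

end upper


section total
variable {m n k : ℕ} {c0 φ0 s : ℝ}

/-- `∑_{i < N} (i+1)^(-a) ≤ N^(1-a)/(1-a)`. -/
lemma sum_rpow_le {a : ℝ} (h0 : 0 < a) (h1 : a < 1) (N : ℕ) :
    ∑ i ∈ Finset.range N, ((i : ℝ) + 1) ^ (-a) ≤ (N : ℝ) ^ (1 - a) / (1 - a) := by
  induction N with
  | zero =>
    rw [Finset.sum_range_zero, Nat.cast_zero, Real.zero_rpow (by linarith), zero_div]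
  | succ N ih =>
    rw [Finset.sum_range_succ]
    have hN : (0 : ℝ) < (N : ℝ) + 1 := by positivity
    have h2 : (0 : ℝ) < 1 - a := by linarith
    have key : (N : ℝ) ^ (1 - a) ≤ ((N : ℝ) + 1) ^ (1 - a) - (1 - a) * ((N : ℝ) + 1) ^ (-a) := by
      have hb := rpow_one_add_le_one_add_mul_self (s := -(1 / ((N : ℝ) + 1))) (p := 1 - a)
        (by
          have : 1 / ((N : ℝ) + 1) ≤ 1 := by
            rw [div_le_one hN]
            linarith [Nat.cast_nonneg (α := ℝ) N]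
          linarith) h2.le (by linarith)
      have e1 : (N : ℝ) = ((N : ℝ) + 1) * (1 + -(1 / ((N : ℝ) + 1))) := by
        field_simp
        ring
      have e2 : (0 : ℝ) ≤ 1 + -(1 / ((N : ℝ) + 1)) := by
        have : 1 / ((N : ℝ) + 1) ≤ 1 := by
          rw [div_le_one hN]
          linarith [Nat.cast_nonneg (α := ℝ) N]
        linarith
      calc (N : ℝ) ^ (1 - a) = ((N : ℝ) + 1) ^ (1 - a) * (1 + -(1 / ((N : ℝ) + 1))) ^ (1 - a) := by
            rw [← Real.mul_rpow hN.le e2, ← e1]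
        _ ≤ ((N : ℝ) + 1) ^ (1 - a) * (1 + (1 - a) * -(1 / ((N : ℝ) + 1))) := by gcongr
        _ = ((N : ℝ) + 1) ^ (1 - a) - (1 - a) * (((N : ℝ) + 1) ^ (1 - a) / ((N : ℝ) + 1)) := by
            ring
        _ = _ := by
            rw [← Real.rpow_sub_one hN.ne']
            congr 3
            ring
    have e3 : (((N + 1 : ℕ) : ℝ)) = (N : ℝ) + 1 := by push_cast; ring
    rw [e3]
    calc ∑ i ∈ Finset.range N, ((i : ℝ) + 1) ^ (-a) + ((N : ℝ) + 1) ^ (-a)
        ≤ (N : ℝ) ^ (1 - a) / (1 - a) + ((N : ℝ) + 1) ^ (-a) := by linarith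
      _ ≤ (((N : ℝ) + 1) ^ (1 - a) - (1 - a) * ((N : ℝ) + 1) ^ (-a)) / (1 - a) +
            ((N : ℝ) + 1) ^ (-a) := by gcongr
      _ = _ := by
          field_simp
          ring

/-- Bounds of the radius in the quadrant number `i`. -/
lemma exists_A (hmn : n < m) (hn : 1 ≤ n) (hk : 1 ≤ k) (hc : 0 < c0) (hφ : 0 ≤ φ0) :
    ∃ K : ℝ, 0 < K ∧ ∀ (i : ℕ) (τ : ℝ), 0 ≤ τ → (i : ℝ) * (Real.pi / 2) ≤ φ0 + τ →
      (i : ℝ) * (Real.pi / 2) ≤ φ0 + τ →
      R k c0 τ ^ (1 / (m : ℝ)) ≤ K * ((i : ℝ) + 1) ^ (-(1 / (2 * k * m : ℝ))) ∧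
      R k c0 τ ^ (1 / (n : ℝ)) ≤ K * ((i : ℝ) + 1) ^ (-(1 / (2 * k * m : ℝ))) := by
  have hk0 : (0 : ℝ) < k := by exact_mod_cast hk
  have hk1 : (1 : ℝ) ≤ k := by exact_mod_cast hk
  have hn0 : (0 : ℝ) < n := by exact_mod_cast hn
  have hm0 : (0 : ℝ) < m := by exact_mod_cast (by omega : 0 < m)
  have hnm : (n : ℝ) < m := by exact_mod_cast hmn
  have hpi := Real.pi_pos
  have hpi2 := Real.two_le_pi
  set C : ℝ := 1 + (φ0 + 1) / c0 with hC
  have hC0 : 0 < C := by positivity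
  set a : ℝ := 1 / (2 * k * m : ℝ) with ha
  have ha0 : 0 < a := by positivity
  have hR0 := R_pos (k := k) hc (le_refl (0 : ℝ))
  set d : ℝ := 1 / (n : ℝ) - 1 / m with hd
  have hd0 : 0 ≤ d := by
    rw [hd, sub_nonneg]
    gcongr
  set K' : ℝ := max 1 (R k c0 0 ^ d) with hK'
  have hK'1 : 1 ≤ K' := le_max_left _ _
  refine ⟨K' * C ^ a, by positivity, fun i τ hτ h1 _ => ?_⟩
  have hRτ := R_pos (k := k) hc hτ
  -- lower bound for the base
  have hbase : ((i : ℝ) + 1) / C ≤ 2 * k * τ + c0 := by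
    rw [div_le_iff₀ hC0]
    have h2 : (i : ℝ) + 1 ≤ τ + (φ0 + 1) := by nlinarith [Nat.cast_nonneg (α := ℝ) i]
    have h3 : τ ≤ 2 * k * τ * C := by
      have h4 : 1 ≤ C := by
        rw [hC]
        have : 0 ≤ (φ0 + 1) / c0 := by positivity
        linarith
      have h5 : (1 : ℝ) ≤ 2 * k * C := by nlinarith
      nlinarith
    have h6 : φ0 + 1 ≤ c0 * C := by
      rw [hC]
      have : c0 * (1 + (φ0 + 1) / c0) = c0 + (φ0 + 1) := by field_simp
      rw [this]
      linarith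
    nlinarith
  have hRm : R k c0 τ ^ (1 / (m : ℝ)) ≤ C ^ a * ((i : ℝ) + 1) ^ (-a) := by
    have e1 : R k c0 τ ^ (1 / (m : ℝ)) = (2 * k * τ + c0) ^ (-a) := by
      unfold R
      rw [← Real.rpow_mul (base_pos hc hτ).le]
      congr 1
      rw [ha]
      field_simp
    rw [e1]
    calc (2 * k * τ + c0) ^ (-a) ≤ (((i : ℝ) + 1) / C) ^ (-a) := by
          apply Real.rpow_le_rpow_of_nonpos (by positivity) hbase (by linarith)
      _ = C ^ a * ((i : ℝ) + 1) ^ (-a) := by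
          rw [Real.div_rpow (by positivity) hC0.le, Real.rpow_neg hC0.le, div_inv_eq_mul]
          ring
  have hpos : 0 < C ^ a * ((i : ℝ) + 1) ^ (-a) := by positivity
  constructor
  · calc R k c0 τ ^ (1 / (m : ℝ)) ≤ C ^ a * ((i : ℝ) + 1) ^ (-a) := hRm
      _ ≤ K' * (C ^ a * ((i : ℝ) + 1) ^ (-a)) := by nlinarith
      _ = _ := by ring
  · have e2 : R k c0 τ ^ (1 / (n : ℝ)) = R k c0 τ ^ d * R k c0 τ ^ (1 / (m : ℝ)) := by
      rw [← Real.rpow_add hRτ]
      congr 1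
      rw [hd]
      ring
    rw [e2]
    have h7 : R k c0 τ ^ d ≤ K' := by
      refine le_trans ?_ (le_max_right _ _)
      exact Real.rpow_le_rpow hRτ.le (R_anti hc le_rfl hτ) hd0
    calc R k c0 τ ^ d * R k c0 τ ^ (1 / (m : ℝ)) ≤ K' * (C ^ a * ((i : ℝ) + 1) ^ (-a)) := by
          apply mul_le_mul h7 hRm (by positivity) (by positivity)
      _ = _ := by ring

/-- The neighbourhood of the part of the spiral in one quadrant. -/
lemma quadrant_measure (hm : Odd m) (hn : Odd n) (hc : 0 < c0) (hs : s = 1 ∨ s = -1) {A ε : ℝ}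
    (hε : 0 < ε) (i : ℕ)
    (hA : ∀ τ : ℝ, 0 ≤ τ → (i : ℝ) * (Real.pi / 2) ≤ φ0 + τ →
      R k c0 τ ^ (1 / (m : ℝ)) ≤ A ∧ R k c0 τ ^ (1 / (n : ℝ)) ≤ A) (hA0 : 0 ≤ A) :
    volume {p : Plane | ∃ τ ∈ {τ : ℝ | 0 ≤ τ ∧ (i : ℝ) * (Real.pi / 2) ≤ φ0 + τ ∧
        φ0 + τ ≤ (i + 1) * (Real.pi / 2)}, dist p (crv m n k c0 φ0 s τ) ≤ 2 * ε} ≤
      ENNReal.ofReal ((6 * A / ε + 1) * (36 * ε ^ 2)) := by
  set Λ : ℝ → ℝ := fun τ => (A * (M m (φ0 + τ - i * (Real.pi / 2)) +
    M n (φ0 + τ - i * (Real.pi / 2))) - R k c0 τ ^ (1 / (m : ℝ)) - R k c0 τ ^ (1 / (n : ℝ))) +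
    4 * A with hΛ
  have hbd : ∀ τ ∈ {τ : ℝ | 0 ≤ τ ∧ (i : ℝ) * (Real.pi / 2) ≤ φ0 + τ ∧
        φ0 + τ ≤ (i + 1) * (Real.pi / 2)}, 0 ≤ Λ τ ∧ Λ τ ≤ 6 * A := by
    rintro τ ⟨h0, h1, h2⟩
    obtain ⟨a1, a2⟩ := hA τ h0 h1
    have b1 := M_ge hm (α := φ0 + τ - i * (Real.pi / 2)) (by linarith) (by linarith)
    have b2 := M_le hm (α := φ0 + τ - i * (Real.pi / 2)) (by linarith) (by linarith)
    have b3 := M_ge hn (α := φ0 + τ - i * (Real.pi / 2)) (by linarith) (by linarith)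
    have b4 := M_le hn (α := φ0 + τ - i * (Real.pi / 2)) (by linarith) (by linarith)
    have hR := R_pos (k := k) hc h0
    have c1 : 0 ≤ R k c0 τ ^ (1 / (m : ℝ)) := by positivity
    have c2 : 0 ≤ R k c0 τ ^ (1 / (n : ℝ)) := by positivity
    rw [hΛ]
    simp only
    constructor <;> nlinarith
  apply cover_clock hε (fun τ hτ => (hbd τ hτ).1) (fun τ hτ => (hbd τ hτ).2)
  have key : ∀ τ τ' : ℝ, τ ∈ {τ : ℝ | 0 ≤ τ ∧ (i : ℝ) * (Real.pi / 2) ≤ φ0 + τ ∧
        φ0 + τ ≤ (i + 1) * (Real.pi / 2)} → τ' ∈ {τ : ℝ | 0 ≤ τ ∧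
        (i : ℝ) * (Real.pi / 2) ≤ φ0 + τ ∧ φ0 + τ ≤ (i + 1) * (Real.pi / 2)} → τ ≤ τ' →
      dist (crv m n k c0 φ0 s τ) (crv m n k c0 φ0 s τ') ≤ |Λ τ - Λ τ'| := by
    rintro τ τ' ⟨h0, h1, h2⟩ ⟨h0', h1', h2'⟩ hle
    obtain ⟨a1, a2⟩ := hA τ h0 h1
    have h := crv_dist (k := k) hm hn hc hs i h0 hle h1 h2' a1 a2
    rw [abs_sub_comm]
    refine h.trans (le_trans (le_of_eq ?_) (le_abs_self _))
    rw [hΛ]
    ring
  intro τ hτ τ' hτ'
  rcases le_total τ τ' with h | h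
  · exact key τ τ' hτ hτ' h
  · rw [dist_comm, abs_sub_comm]
    exact key τ' τ hτ' hτ h

/-- The upper bound for the measure of the neighbourhood. -/
lemma upper_measure (hm : Odd m) (hn : Odd n) (hmn : n < m) (hk : 1 ≤ k) (hc : 0 < c0)
    (hφ : 0 ≤ φ0) (hs : s = 1 ∨ s = -1) :
    ∃ C : ℝ, 0 < C ∧ ∀ r : ℝ, 0 < r → r ≤ 1 →
      volume (Metric.cthickening (r ^ (bet n k)) (spiral m n k c0 φ0 s)) ≤
        ENNReal.ofReal (C * r ^ (1 / (m : ℝ) + 1 / n)) := by
  have hn1 : 1 ≤ n := hn.pos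
  have hk0 : (0 : ℝ) < k := by exact_mod_cast hk
  have hk1 : (1 : ℝ) ≤ k := by exact_mod_cast hk
  have hn0 : (0 : ℝ) < n := by exact_mod_cast hn1
  have hn1' : (1 : ℝ) ≤ n := by exact_mod_cast hn1
  have hm0 : (0 : ℝ) < m := by exact_mod_cast (by omega : 0 < m)
  have hm1' : (1 : ℝ) ≤ m := by exact_mod_cast (by omega : 1 ≤ m)
  have hnm : (n : ℝ) < m := by exact_mod_cast hmn
  have hpi := Real.pi_pos
  have hpi2 := Real.two_le_pi
  obtain ⟨K, hK0, hK⟩ := exists_A (φ0 := φ0) hmn hn1 hk hc hφ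
  set a : ℝ := 1 / (2 * k * m : ℝ) with ha
  have ha0 : 0 < a := by positivity
  have ha1 : a < 1 := by
    rw [ha, div_lt_one (by positivity)]
    nlinarith
  have hinv_m : 1 / (m : ℝ) ≤ 1 := by rw [div_le_one hm0]; exact hm1'
  have hinv_n : 1 / (n : ℝ) ≤ 1 := by rw [div_le_one hn0]; exact hn1'
  have hinv_mn : 1 / (m : ℝ) ≤ 1 / n := by gcongr
  have hinv_m0 : 0 < 1 / (m : ℝ) := by positivity
  have hinv_n0 : 0 < 1 / (n : ℝ) := by positivity
  have h1a : 0 < 1 - a := by linarith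
  set D : ℝ := φ0 + 2 with hD
  have hD0 : 0 < D := by positivity
  refine ⟨36 + 216 * K * (D ^ (1 - a) / (1 - a)) + 36 * D, by positivity, fun r hr hr1 => ?_⟩
  set ε : ℝ := r ^ (bet n k) with hε
  have hε0 : 0 < ε := by positivity
  set E : ℝ := 1 / (m : ℝ) + 1 / n with hE
  set N : ℕ := ⌊φ0 + (r ^ (2 * k))⁻¹⌋₊ + 1 with hN
  have hr2k : (1 : ℝ) ≤ (r ^ (2 * k))⁻¹ := by
    rw [one_le_inv₀ (by positivity)]
    exact pow_le_one₀ hr.le hr1
  have hNle : (N : ℝ) ≤ D * (r ^ (2 * k))⁻¹ := by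
    have h1 := Nat.floor_le (show 0 ≤ φ0 + (r ^ (2 * k))⁻¹ by positivity)
    rw [hN]
    push_cast
    nlinarith
  -- the decomposition
  have hsub : Metric.cthickening ε (spiral m n k c0 φ0 s) ⊆
      box (-(r ^ (1 / (m : ℝ)) + 2 * ε)) (r ^ (1 / (m : ℝ)) + 2 * ε)
        (-(r ^ (1 / (n : ℝ)) + 2 * ε)) (r ^ (1 / (n : ℝ)) + 2 * ε) ∪
      ⋃ i ∈ Finset.range N, {p : Plane | ∃ τ ∈ {τ : ℝ | 0 ≤ τ ∧ (i : ℝ) * (Real.pi / 2) ≤ φ0 + τ ∧
        φ0 + τ ≤ (i + 1) * (Real.pi / 2)}, dist p (crv m n k c0 φ0 s τ) ≤ 2 * ε} := by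
    intro p hp
    have h1 := Metric.cthickening_subset_thickening' (δ₁ := ε) (δ₂ := 2 * ε) (by linarith)
      (by linarith) _ hp
    obtain ⟨z, ⟨τ, hτ, hz0, hz1⟩, hpz⟩ := Metric.mem_thickening_iff.mp h1
    have hz := spiral_eq hm hn hc hs hτ hz0 hz1
    have hR := R_pos (k := k) hc hτ
    rcases le_or_gt (R k c0 τ) r with hRr | hRr
    · left
      have hzm : |z 0| ≤ r ^ (1 / (m : ℝ)) := by
        rw [hz]
        change |R k c0 τ ^ (1 / (m : ℝ)) * rt m (Real.cos (φ0 + τ))| ≤ _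
        rw [abs_mul, abs_of_pos (by positivity)]
        calc R k c0 τ ^ (1 / (m : ℝ)) * |rt m (Real.cos (φ0 + τ))|
            ≤ r ^ (1 / (m : ℝ)) * 1 := by
              apply mul_le_mul _ (abs_rt_le hm (Real.abs_cos_le_one _)) (abs_nonneg _)
                (by positivity)
              exact Real.rpow_le_rpow hR.le hRr (by positivity)
          _ = _ := mul_one _
      have hzn : |z 1| ≤ r ^ (1 / (n : ℝ)) := by
        rw [hz]
        change |s * (R k c0 τ ^ (1 / (n : ℝ)) * rt n (Real.sin (φ0 + τ)))| ≤ _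
        have hs1 : |s| = 1 := by rcases hs with rfl | rfl <;> simp
        rw [abs_mul, hs1, one_mul, abs_mul, abs_of_pos (by positivity)]
        calc R k c0 τ ^ (1 / (n : ℝ)) * |rt n (Real.sin (φ0 + τ))|
            ≤ r ^ (1 / (n : ℝ)) * 1 := by
              apply mul_le_mul _ (abs_rt_le hn (Real.abs_sin_le_one _)) (abs_nonneg _)
                (by positivity)
              exact Real.rpow_le_rpow hR.le hRr (by positivity)
          _ = _ := mul_one _
      have h3 := abs_le.mp ((abs_coord_le p z 0).trans hpz.le)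
      have h4 := abs_le.mp ((abs_coord_le p z 1).trans hpz.le)
      rw [abs_le] at hzm hzn
      refine ⟨⟨?_, ?_⟩, ⟨?_, ?_⟩⟩ <;> linarith [hzm.1, hzm.2, hzn.1, hzn.2, h3.1, h3.2, h4.1, h4.2]
    · right
      set i : ℕ := ⌊(φ0 + τ) / (Real.pi / 2)⌋₊ with hi
      have hφτ : 0 ≤ (φ0 + τ) / (Real.pi / 2) := by positivity
      have h5 := Nat.floor_le hφτ
      have h6 := Nat.lt_floor_add_one ((φ0 + τ) / (Real.pi / 2))
      rw [← hi, le_div_iff₀ (by positivity)] at h5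
      rw [← hi, div_lt_iff₀ (by positivity)] at h6
      have h7 : 2 * k * τ + c0 < (r ^ (2 * k))⁻¹ := by
        have h8 : r ^ (2 * k) < R k c0 τ ^ (2 * k) := pow_lt_pow_left₀ hRr hr.le (by omega)
        rw [R_pow hk hc hτ] at h8
        rw [lt_inv_comm₀ (base_pos hc hτ) (by positivity)]
        exact h8
      have h9 : (i : ℝ) ≤ φ0 + (r ^ (2 * k))⁻¹ := by
        have h10 : τ ≤ (r ^ (2 * k))⁻¹ := by nlinarith
        nlinarith [Nat.cast_nonneg (α := ℝ) i]
      have hiN : i ∈ Finset.range N := by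
        rw [Finset.mem_range, hN, Nat.lt_succ_iff]
        exact Nat.le_floor h9
      refine mem_iUnion₂.mpr ⟨i, hiN, τ, ⟨hτ, h5, h6.le⟩, ?_⟩
      rw [← hz]
      exact hpz.le
  have hεn : ε ≤ r ^ (1 / (n : ℝ)) := by
    rw [hε]
    apply Real.rpow_le_rpow_of_exponent_ge hr hr1
    unfold bet
    linarith
  have hεm : ε ≤ r ^ (1 / (m : ℝ)) := by
    refine hεn.trans ?_
    exact Real.rpow_le_rpow_of_exponent_ge hr hr1 hinv_mn
  have hrE : r ^ (1 / (m : ℝ)) * r ^ (1 / (n : ℝ)) = r ^ E := by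
    rw [hE, Real.rpow_add hr]
  have hrE0 : 0 < r ^ E := by positivity
  -- nucleus
  have hnuc : volume (box (-(r ^ (1 / (m : ℝ)) + 2 * ε)) (r ^ (1 / (m : ℝ)) + 2 * ε)
        (-(r ^ (1 / (n : ℝ)) + 2 * ε)) (r ^ (1 / (n : ℝ)) + 2 * ε)) ≤
        ENNReal.ofReal (36 * r ^ E) := by
    have hm' : 0 < r ^ (1 / (m : ℝ)) := by positivity
    have hn' : 0 < r ^ (1 / (n : ℝ)) := by positivity
    rw [volume_box (by linarith)]
    apply ENNReal.ofReal_le_ofReal
    calc _ ≤ (6 * r ^ (1 / (m : ℝ))) * (6 * r ^ (1 / (n : ℝ))) := by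
          apply mul_le_mul
          · linarith
          · linarith
          · linarith
          · positivity
      _ = 36 * (r ^ (1 / (m : ℝ)) * r ^ (1 / (n : ℝ))) := by ring
      _ = _ := by rw [hrE]
  -- tail
  have htail : ∀ i : ℕ, volume {p : Plane | ∃ τ ∈ {τ : ℝ | 0 ≤ τ ∧
      (i : ℝ) * (Real.pi / 2) ≤ φ0 + τ ∧ φ0 + τ ≤ (i + 1) * (Real.pi / 2)},
      dist p (crv m n k c0 φ0 s τ) ≤ 2 * ε} ≤
      ENNReal.ofReal (216 * K * ε * ((i : ℝ) + 1) ^ (-a) + 36 * ε ^ 2) := by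
    intro i
    refine (quadrant_measure (A := K * ((i : ℝ) + 1) ^ (-a)) hm hn hc hs hε0 i ?_
      (by positivity)).trans ?_
    · intro τ h0 h1
      exact hK i τ h0 h1 h1
    · apply ENNReal.ofReal_le_ofReal
      apply le_of_eq
      field_simp
      ring
  have hsum : ∑ i ∈ Finset.range N, (216 * K * ε * ((i : ℝ) + 1) ^ (-a) + 36 * ε ^ 2) ≤
      (216 * K * (D ^ (1 - a) / (1 - a)) + 36 * D) * r ^ E := by
    rw [Finset.sum_add_distrib, ← Finset.mul_sum, Finset.sum_const, Finset.card_range,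
      nsmul_eq_mul]
    have h1 := sum_rpow_le ha0 ha1 N
    have hN0 : (0 : ℝ) ≤ N := Nat.cast_nonneg N
    have h2 : (N : ℝ) ^ (1 - a) ≤ D ^ (1 - a) * ((r ^ (2 * k))⁻¹) ^ (1 - a) := by
      rw [← Real.mul_rpow hD0.le (by positivity)]
      exact Real.rpow_le_rpow hN0 hNle h1a.le
    have e1 : ε * ((r ^ (2 * k))⁻¹) ^ (1 - a) = r ^ E := by
      have e2 : ((r ^ (2 * k))⁻¹) = r ^ (-(2 * k : ℝ)) := by
        rw [Real.rpow_neg hr.le, ← Real.rpow_natCast]
        push_cast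
        rfl
      rw [e2, ← Real.rpow_mul hr.le, hε, ← Real.rpow_add hr]
      congr 1
      rw [hE, ha]
      unfold bet
      field_simp
      ring
    have e3 : ε ^ 2 * (r ^ (2 * k))⁻¹ ≤ r ^ E := by
      have e2 : ((r ^ (2 * k))⁻¹) = r ^ (-(2 * k : ℝ)) := by
        rw [Real.rpow_neg hr.le, ← Real.rpow_natCast]
        push_cast
        rfl
      rw [e2, hε, ← Real.rpow_natCast, ← Real.rpow_mul hr.le, ← Real.rpow_add hr]
      apply Real.rpow_le_rpow_of_exponent_ge hr hr1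
      rw [hE]
      unfold bet
      push_cast
      nlinarith
    have h3 : 216 * K * ε * ∑ i ∈ Finset.range N, ((i : ℝ) + 1) ^ (-a) ≤
        216 * K * (D ^ (1 - a) / (1 - a)) * r ^ E := by
      calc 216 * K * ε * ∑ i ∈ Finset.range N, ((i : ℝ) + 1) ^ (-a)
          ≤ 216 * K * ε * ((N : ℝ) ^ (1 - a) / (1 - a)) := by gcongr
        _ ≤ 216 * K * ε * ((D ^ (1 - a) * ((r ^ (2 * k))⁻¹) ^ (1 - a)) / (1 - a)) := by gcongr
        _ = 216 * K * (D ^ (1 - a) / (1 - a)) * (ε * ((r ^ (2 * k))⁻¹) ^ (1 - a)) := by ring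
        _ = _ := by rw [e1]
    have h4 : (N : ℝ) * (36 * ε ^ 2) ≤ 36 * D * r ^ E := by
      calc (N : ℝ) * (36 * ε ^ 2) ≤ (D * (r ^ (2 * k))⁻¹) * (36 * ε ^ 2) := by gcongr
        _ = 36 * D * (ε ^ 2 * (r ^ (2 * k))⁻¹) := by ring
        _ ≤ _ := by gcongr
    linarith
  calc volume (Metric.cthickening ε (spiral m n k c0 φ0 s))
      ≤ _ := measure_mono hsub
    _ ≤ _ := measure_union_le _ _
    _ ≤ ENNReal.ofReal (36 * r ^ E) + ∑ i ∈ Finset.range N,
          ENNReal.ofReal (216 * K * ε * ((i : ℝ) + 1) ^ (-a) + 36 * ε ^ 2) := by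
        apply add_le_add hnuc
        refine (measure_biUnion_finset_le _ _).trans ?_
        exact Finset.sum_le_sum fun i _ => htail i
    _ = ENNReal.ofReal (36 * r ^ E) + ENNReal.ofReal (∑ i ∈ Finset.range N,
          (216 * K * ε * ((i : ℝ) + 1) ^ (-a) + 36 * ε ^ 2)) := by
        rw [ENNReal.ofReal_sum_of_nonneg]
        intro i _
        positivity
    _ ≤ ENNReal.ofReal (36 * r ^ E) +
          ENNReal.ofReal ((216 * K * (D ^ (1 - a) / (1 - a)) + 36 * D) * r ^ E) := by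
        gcongr
    _ = ENNReal.ofReal ((36 + 216 * K * (D ^ (1 - a) / (1 - a)) + 36 * D) * r ^ E) := by
        rw [← ENNReal.ofReal_add (by positivity) (by positivity)]
        congr 1
        ring

end total


section limit
variable {m n k : ℕ} {c0 φ0 s : ℝ}

/-- Power bounds for the area give the Minkowski dimension. -/
lemma dim_of_bounds {S : Set Plane} {E c C : ℝ} (hc : 0 < c) (hC : 0 < C)
    (h1 : ∀ᶠ ε : ℝ in 𝓝[>] 0, c * ε ^ E ≤ area S ε)
    (h2 : ∀ᶠ ε : ℝ in 𝓝[>] 0, area S ε ≤ C * ε ^ E) : HasMinkowskiDim S (2 - E) := by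
  unfold HasMinkowskiDim
  apply Tendsto.const_sub
  have hlog : Tendsto Real.log (𝓝[>] (0 : ℝ)) atBot := Real.tendsto_log_nhdsGT_zero
  have hl : ∀ A : ℝ, 0 < A → Tendsto (fun ε : ℝ => Real.log (A * ε ^ E) / Real.log ε)
      (𝓝[>] 0) (𝓝 E) := by
    intro A hA
    have h3 : Tendsto (fun ε : ℝ => Real.log A / Real.log ε + E) (𝓝[>] 0) (𝓝 (0 + E)) :=
      ((tendsto_const_nhds (x := Real.log A)).div_atBot hlog).add_const E
    rw [zero_add] at h3
    refine h3.congr' ?_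
    have h4 : ∀ᶠ ε : ℝ in 𝓝[>] 0, ε ∈ Ioo (0 : ℝ) 1 := Ioo_mem_nhdsGT one_pos
    filter_upwards [h4] with ε hε
    have hlogε : Real.log ε < 0 := Real.log_neg hε.1 hε.2
    rw [Real.log_mul hA.ne' (Real.rpow_pos_of_pos hε.1 _).ne', Real.log_rpow hε.1, add_div,
      mul_div_cancel_right₀ _ hlogε.ne]
  have h4 : ∀ᶠ ε : ℝ in 𝓝[>] 0, ε ∈ Ioo (0 : ℝ) 1 := Ioo_mem_nhdsGT one_pos
  apply tendsto_of_tendsto_of_tendsto_of_le_of_le' (hl C hC) (hl c hc)
  · filter_upwards [h1, h2, h4] with ε e1 e2 hε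
    have hlogε : Real.log ε < 0 := Real.log_neg hε.1 hε.2
    have hp : 0 < c * ε ^ E := mul_pos hc (Real.rpow_pos_of_pos hε.1 _)
    rw [div_le_div_right_of_neg hlogε]
    exact Real.log_le_log (hp.trans_le e1) e2
  · filter_upwards [h1, h2, h4] with ε e1 e2 hε
    have hlogε : Real.log ε < 0 := Real.log_neg hε.1 hε.2
    have hp : 0 < c * ε ^ E := mul_pos hc (Real.rpow_pos_of_pos hε.1 _)
    rw [div_le_div_right_of_neg hlogε]
    exact Real.log_le_log hp e1

/-- The dimension of the model spiral. -/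
lemma spiral_dim (hm : Odd m) (hn : Odd n) (hmn : n < m) (hk : 1 ≤ k) (hc : 0 < c0)
    (hφ : 0 ≤ φ0) (hs : s = 1 ∨ s = -1) :
    HasMinkowskiDim (spiral m n k c0 φ0 s) (2 - (1 + (n : ℝ) / m) / (1 + 2 * k * n)) := by
  have hn1 : 1 ≤ n := hn.pos
  have hk0 : (0 : ℝ) < k := by exact_mod_cast hk
  have hn0 : (0 : ℝ) < n := by exact_mod_cast hn1
  have hm0 : (0 : ℝ) < m := by exact_mod_cast (by omega : 0 < m)
  have hpi := Real.pi_pos
  have hβ := bet_pos (n := n) hk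
  set β := bet n k with hβdef
  have hs2 : s ^ 2 = 1 := by rcases hs with rfl | rfl <;> norm_num
  obtain ⟨C, hC0, hC⟩ := upper_measure (c0 := c0) (φ0 := φ0) (s := s) hm hn hmn hk hc hφ hs
  set E : ℝ := (1 / (m : ℝ) + 1 / n) / β with hE
  have hE2 : (1 + (n : ℝ) / m) / (1 + 2 * k * n) = E := by
    rw [hE, hβdef]
    unfold bet
    field_simp
    ring
  rw [hE2]
  -- the constant of the lower bound
  set c1 : ℝ := (1 / 4 : ℝ) ^ (1 / (m : ℝ)) *
    ((3 / 4 : ℝ) ^ (1 / (n : ℝ)) - (1 / 2 : ℝ) ^ (1 / (n : ℝ))) with hc1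
  have hc10 : 0 < c1 := by
    apply mul_pos (by positivity)
    have := Real.rpow_lt_rpow (by norm_num : (0 : ℝ) ≤ 1 / 2) (by norm_num : (1 / 2 : ℝ) < 3 / 4)
      (by positivity : 0 < 1 / (n : ℝ))
    linarith
  have hfin : ∀ᶠ ε : ℝ in 𝓝[>] 0,
      volume (Metric.cthickening ε (spiral m n k c0 φ0 s)) ≤ ENNReal.ofReal (C * ε ^ E) := by
    have h4 : ∀ᶠ ε : ℝ in 𝓝[>] 0, ε ∈ Ioo (0 : ℝ) 1 := Ioo_mem_nhdsGT one_pos
    filter_upwards [h4] with ε hε
    have h5 := hC (ε ^ (1 / β)) (Real.rpow_pos_of_pos hε.1 _)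
      (Real.rpow_le_one hε.1.le hε.2.le (by positivity))
    have e1 : (ε ^ (1 / β)) ^ β = ε := by
      rw [← Real.rpow_mul hε.1.le, one_div, inv_mul_cancel₀ hβ.ne', Real.rpow_one]
    have e2 : (ε ^ (1 / β)) ^ (1 / (m : ℝ) + 1 / n) = ε ^ E := by
      rw [← Real.rpow_mul hε.1.le, hE]
      congr 1
      ring
    rw [e1, e2] at h5
    exact h5
  apply dim_of_bounds (c := c1 * (1 / (32 * Real.pi)) ^ E) (C := C) (by positivity) hC0
  · -- lower bound
    have hsmall : ∀ᶠ ε : ℝ in 𝓝[>] 0, c0 ≤ (((ε / (32 * Real.pi)) ^ (1 / β)) ^ (2 * k))⁻¹ ∧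
        4 * Real.pi * ((ε / (32 * Real.pi)) ^ (1 / β)) ^ (2 * k) ≤ 1 / 4 := by
      have h6 : Tendsto (fun ε : ℝ => ((ε / (32 * Real.pi)) ^ (1 / β)) ^ (2 * k)) (𝓝[>] 0)
          (𝓝 0) := by
        have h7 : Tendsto (fun ε : ℝ => ((ε / (32 * Real.pi)) ^ (1 / β)) ^ (2 * k)) (𝓝[>] 0)
            (𝓝 (((0 / (32 * Real.pi)) ^ (1 / β)) ^ (2 * k))) := by
          apply Tendsto.mono_left _ nhdsWithin_le_nhds
          apply ContinuousAt.tendsto (f := fun ε : ℝ => ((ε / (32 * Real.pi)) ^ (1 / β)) ^ (2 * k))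
          apply ContinuousAt.pow
          apply ContinuousAt.rpow_const
          · fun_prop
          · right
            positivity
        rw [zero_div, Real.zero_rpow (by positivity), zero_pow (by omega)] at h7
        exact h7
      have h8 : (0 : ℝ) < min c0⁻¹ (1 / (16 * Real.pi)) := by positivity
      have h9 := h6.eventually_lt_const h8
      have h4 : ∀ᶠ ε : ℝ in 𝓝[>] 0, ε ∈ Ioo (0 : ℝ) 1 := Ioo_mem_nhdsGT one_pos
      filter_upwards [h9, h4] with ε hε hε0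
      have hpos : 0 < ((ε / (32 * Real.pi)) ^ (1 / β)) ^ (2 * k) := by
        have := hε0.1
        positivity
      constructor
      · have h10 := (hε.trans_le (min_le_left _ _)).le
        rw [le_inv_comm₀ hc hpos]
        exact h10
      · have h10 := (hε.trans_le (min_le_right _ _)).le
        calc 4 * Real.pi * ((ε / (32 * Real.pi)) ^ (1 / β)) ^ (2 * k)
            ≤ 4 * Real.pi * (1 / (16 * Real.pi)) := by gcongr
          _ = 1 / 4 := by field_simp; norm_num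
    have h4 : ∀ᶠ ε : ℝ in 𝓝[>] 0, ε ∈ Ioo (0 : ℝ) 1 := Ioo_mem_nhdsGT one_pos
    filter_upwards [hsmall, h4, hfin] with ε hε hε0 hf
    have hε1 := hε0.1
    set r : ℝ := (ε / (32 * Real.pi)) ^ (1 / β) with hr
    have hr0 : 0 < r := by positivity
    have e1 : r ^ β = ε / (32 * Real.pi) := by
      rw [hr, ← Real.rpow_mul (by positivity), one_div, inv_mul_cancel₀ hβ.ne', Real.rpow_one]
    have h5 := lower_measure (φ0 := φ0) (s := s) hm hn hk hc hs2 hr0 hε.1 hε.2 (ε := ε) (by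
      rw [← hβdef, e1]
      apply le_of_eq
      field_simp)
    have h6 : volume (Metric.cthickening ε (spiral m n k c0 φ0 s)) ≠ ∞ :=
      ne_top_of_le_ne_top ENNReal.ofReal_ne_top hf
    unfold area
    rw [← ENNReal.ofReal_le_iff_le_toReal h6]
    refine le_trans (le_of_eq ?_) h5
    congr 1
    have e2 : (r / 4) ^ (1 / (m : ℝ)) = (1 / 4 : ℝ) ^ (1 / (m : ℝ)) * r ^ (1 / (m : ℝ)) := by
      rw [← Real.mul_rpow (by norm_num) hr0.le]
      congr 1
      ring
    have e3 : (3 * r / 4) ^ (1 / (n : ℝ)) = (3 / 4 : ℝ) ^ (1 / (n : ℝ)) * r ^ (1 / (n : ℝ)) := by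
      rw [← Real.mul_rpow (by norm_num) hr0.le]
      congr 1
      ring
    have e4 : (r / 2) ^ (1 / (n : ℝ)) = (1 / 2 : ℝ) ^ (1 / (n : ℝ)) * r ^ (1 / (n : ℝ)) := by
      rw [← Real.mul_rpow (by norm_num) hr0.le]
      congr 1
      ring
    have e5 : r ^ (1 / (m : ℝ)) * r ^ (1 / (n : ℝ)) = (1 / (32 * Real.pi)) ^ E * ε ^ E := by
      rw [← Real.rpow_add hr0, ← Real.mul_rpow (by positivity) hε1.le, hr,
        ← Real.rpow_mul (by positivity), hE]
      congr 1
      · ring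
      · ring
    rw [e2, e3, e4, hc1]
    calc _ = (1 / 4 : ℝ) ^ (1 / (m : ℝ)) *
          ((3 / 4 : ℝ) ^ (1 / (n : ℝ)) - (1 / 2 : ℝ) ^ (1 / (n : ℝ))) *
          ((1 / (32 * Real.pi)) ^ E * ε ^ E) := by ring
      _ = (1 / 4 : ℝ) ^ (1 / (m : ℝ)) *
          ((3 / 4 : ℝ) ^ (1 / (n : ℝ)) - (1 / 2 : ℝ) ^ (1 / (n : ℝ))) *
          (r ^ (1 / (m : ℝ)) * r ^ (1 / (n : ℝ))) := by rw [e5]
      _ = _ := by ring
  · have h4 : ∀ᶠ ε : ℝ in 𝓝[>] 0, ε ∈ Ioo (0 : ℝ) 1 := Ioo_mem_nhdsGT one_pos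
    filter_upwards [hfin, h4] with ε hf hε0
    have hε1 := hε0.1
    unfold area
    exact ENNReal.toReal_le_of_le_ofReal (by positivity) hf

end limit

/-! ### The differential equation -/

/-- `ρ = x^(2m) + y^(2n)`. -/
def rho (m n : ℕ) (x y : ℝ) : ℝ := x ^ (2 * m) + y ^ (2 * n)

/-- The first component of the vector field:
`-n y^(2n-1) + σ n x^m y^(n-1) ρ^k`. -/
def fieldX (m n k : ℕ) (σ x y : ℝ) : ℝ :=
  -(n * y ^ (2 * n - 1)) + σ * n * x ^ m * y ^ (n - 1) * rho m n x y ^ k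

/-- The second component of the vector field:
`m x^(2m-1) + σ m x^(m-1) y^n ρ^k`. -/
def fieldY (m n k : ℕ) (σ x y : ℝ) : ℝ :=
  m * x ^ (2 * m - 1) + σ * m * x ^ (m - 1) * y ^ n * rho m n x y ^ k

/-- `S` is a spiral trajectory near the origin of the system with parameters `m, n, k, σ`:
the part `t ≥ T` (for `σ = -1`), respectively `t ≤ T` (for `σ = 1`), of a trajectory, different
from the equilibrium at the origin, that tends to the origin as `t → ∞`, respectively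
`t → -∞`. -/
def IsSpiralTrajectory (m n k : ℕ) (σ : ℝ) (S : Set Plane) : Prop :=
  ∃ (x y : ℝ → ℝ) (T : ℝ),
    (σ = -1 ∧
      (∀ t ≥ T, HasDerivAt x (fieldX m n k σ (x t) (y t)) t ∧
        HasDerivAt y (fieldY m n k σ (x t) (y t)) t ∧ (x t ≠ 0 ∨ y t ≠ 0)) ∧
      Tendsto x atTop (𝓝 0) ∧ Tendsto y atTop (𝓝 0) ∧
      S = (fun t => (!₂[x t, y t] : Plane)) '' Ici T) ∨
    (σ = 1 ∧
      (∀ t ≤ T, HasDerivAt x (fieldX m n k σ (x t) (y t)) t ∧
        HasDerivAt y (fieldY m n k σ (x t) (y t)) t ∧ (x t ≠ 0 ∨ y t ≠ 0)) ∧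
      Tendsto x atBot (𝓝 0) ∧ Tendsto y atBot (𝓝 0) ∧
      S = (fun t => (!₂[x t, y t] : Plane)) '' Iic T)

section ode
variable {m n k : ℕ} {s : ℝ}

/-- Reduction of a trajectory to the model spiral. -/
lemma reduction (hm : Odd m) (hn : Odd n) (hk : 1 ≤ k) (hs : s = 1 ∨ s = -1) {x y : ℝ → ℝ}
    {T : ℝ}
    (hx : ∀ t ≥ T, HasDerivAt x (-(s * n * y t ^ (2 * n - 1)) -
      n * x t ^ m * y t ^ (n - 1) * rho m n (x t) (y t) ^ k) t)
    (hy : ∀ t ≥ T, HasDerivAt y (s * m * x t ^ (2 * m - 1) -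
      m * x t ^ (m - 1) * y t ^ n * rho m n (x t) (y t) ^ k) t)
    (hne : ∀ t ≥ T, x t ≠ 0 ∨ y t ≠ 0)
    (hx0 : Tendsto x atTop (𝓝 0)) (hy0 : Tendsto y atTop (𝓝 0)) :
    ∃ c0 φ0 : ℝ, 0 < c0 ∧ 0 ≤ φ0 ∧
      (fun t => (!₂[x t, y t] : Plane)) '' Ici T = spiral m n k c0 φ0 s := by
  have hk0 : (0 : ℝ) < k := by exact_mod_cast hk
  have hm1 : 1 ≤ m := hm.pos
  have hn1 : 1 ≤ n := hn.pos
  have hs2 : s * s = 1 := by rcases hs with rfl | rfl <;> norm_num
  -- the functions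
  set ρ : ℝ → ℝ := fun t => rho m n (x t) (y t) with hρ
  set w : ℝ → ℝ := fun t => m * n * x t ^ (m - 1) * y t ^ (n - 1) with hw
  set u : ℝ → ℝ := fun t => x t ^ m with hu
  set v : ℝ → ℝ := fun t => y t ^ n with hv
  have hρuv : ∀ t, ρ t = u t ^ 2 + v t ^ 2 := by
    intro t
    simp only [hρ, hu, hv, rho]
    rw [← pow_mul, ← pow_mul, mul_comm m 2, mul_comm n 2]
  have hρ0 : ∀ t ≥ T, 0 < ρ t := by
    intro t ht
    rw [hρuv]
    rcases hne t ht with h | h
    · have : u t ≠ 0 := pow_ne_zero _ h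
      positivity
    · have : v t ≠ 0 := pow_ne_zero _ h
      positivity
  have hw0 : ∀ t, 0 ≤ w t := by
    intro t
    have h1 : Even (m - 1) := by
      obtain ⟨l, hl⟩ := hm
      exact ⟨l, by omega⟩
    have h2 : Even (n - 1) := by
      obtain ⟨l, hl⟩ := hn
      exact ⟨l, by omega⟩
    have h3 := h1.pow_nonneg (x t)
    have h4 := h2.pow_nonneg (y t)
    simp only [hw]
    positivity
  have hu' : ∀ t ≥ T, HasDerivAt u (w t * (-(s * v t) - ρ t ^ k * u t)) t := by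
    intro t ht
    have h1 := (hx t ht).pow m
    refine h1.congr_deriv ?_
    simp only [hw, hu, hv, hρ]
    have e1 : y t ^ (2 * n - 1) = y t ^ (n - 1) * y t ^ n := by
      rw [← pow_add]
      congr 1
      omega
    rw [e1]
    ring
  have hv' : ∀ t ≥ T, HasDerivAt v (w t * (s * u t - ρ t ^ k * v t)) t := by
    intro t ht
    have h1 := (hy t ht).pow n
    refine h1.congr_deriv ?_
    simp only [hw, hu, hv, hρ]
    have e1 : x t ^ (2 * m - 1) = x t ^ (m - 1) * x t ^ m := by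
      rw [← pow_add]
      congr 1
      omega
    rw [e1]
    ring
  have hρ' : ∀ t ≥ T, HasDerivAt ρ (-(2 * w t * ρ t ^ (k + 1))) t := by
    intro t ht
    have h1 := ((hu' t ht).pow 2).add ((hv' t ht).pow 2)
    have h2 : HasDerivAt ρ _ t := h1.congr_of_eventuallyEq (Eventually.of_forall fun t' => by
      simp only [Pi.add_apply, Pi.pow_apply]
      exact hρuv t')
    refine h2.congr_deriv ?_
    rw [pow_succ (ρ t) k]
    have h3 := hρuv t
    simp only [Nat.cast_ofNat, Nat.add_one_sub_one, pow_one]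
    rw [show 2 * w t * (ρ t ^ k * ρ t) = 2 * w t * (ρ t ^ k * (u t ^ 2 + v t ^ 2)) by
      rw [← hρuv t]]
    ring
  -- the new time
  set c0 : ℝ := (ρ T ^ k)⁻¹ with hc0
  have hc0pos : 0 < c0 := by
    have := hρ0 T le_rfl
    positivity
  set τ : ℝ → ℝ := fun t => ((ρ t ^ k)⁻¹ - c0) / (2 * k) with hτ
  have hτ' : ∀ t ≥ T, HasDerivAt τ (w t) t := by
    intro t ht
    have hp := hρ0 t ht
    have h1 := ((((hρ' t ht).pow k).inv (pow_pos hp k).ne').sub_const c0).div_const (2 * (k : ℝ))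
    refine h1.congr_deriv ?_
    have e1 : ρ t ^ k = ρ t ^ (k - 1) * ρ t := by
      rw [← pow_succ]
      congr 1
      omega
    have hpk : ρ t ^ (k - 1) ≠ 0 := (pow_pos hp _).ne'
    rw [pow_succ (ρ t) k]
    simp only [Pi.pow_apply]
    rw [e1]
    field_simp
  have hτT : τ T = 0 := by
    simp only [hτ, hc0]
    ring
  have hτmono : MonotoneOn τ (Ici T) := by
    apply monotoneOn_of_deriv_nonneg (convex_Ici T)
    · intro t ht
      exact (hτ' t ht).continuousAt.continuousWithinAt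
    · intro t ht
      rw [interior_Ici] at ht
      exact (hτ' t (le_of_lt ht)).differentiableAt.differentiableWithinAt
    · intro t ht
      rw [interior_Ici] at ht
      rw [(hτ' t (le_of_lt ht)).deriv]
      exact hw0 t
  have hτ0 : ∀ t ≥ T, 0 ≤ τ t := by
    intro t ht
    have := hτmono (Set.mem_Ici.mpr le_rfl) ht ht
    rwa [hτT] at this
  have hρlim : Tendsto ρ atTop (𝓝 0) := by
    have h1 : Tendsto ρ atTop (𝓝 (0 ^ (2 * m) + 0 ^ (2 * n))) :=
      (hx0.pow (2 * m)).add (hy0.pow (2 * n))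
    rw [zero_pow (by omega), zero_pow (by omega), add_zero] at h1
    exact h1
  have hτtop : Tendsto τ atTop atTop := by
    have h1 : Tendsto (fun t => ρ t ^ k) atTop (𝓝[>] 0) := by
      apply tendsto_nhdsWithin_iff.mpr
      constructor
      · have := hρlim.pow k
        rwa [zero_pow (by omega)] at this
      · filter_upwards [eventually_ge_atTop T] with t ht
        exact pow_pos (hρ0 t ht) k
    have h2 : Tendsto (fun t => (ρ t ^ k)⁻¹) atTop atTop := tendsto_inv_nhdsGT_zero.comp h1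
    exact (tendsto_atTop_add_const_right _ (-c0) h2).atTop_div_const (by positivity)
  have hρτ : ∀ t ≥ T, (ρ t ^ k)⁻¹ = 2 * k * τ t + c0 := by
    intro t _
    simp only [hτ]
    field_simp
    ring
  -- radius
  have hRρ : ∀ t ≥ T, R k c0 (τ t) = Real.sqrt (ρ t) := by
    intro t ht
    have h1 := R_pow hk hc0pos (hτ0 t ht)
    rw [← hρτ t ht, inv_inv] at h1
    have h2 : Real.sqrt (ρ t) ^ (2 * k) = ρ t ^ k := by
      rw [pow_mul, Real.sq_sqrt (hρ0 t ht).le]
    rw [← h2] at h1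
    exact (pow_left_inj₀ (R_pos hc0pos (hτ0 t ht)).le (Real.sqrt_nonneg _) (by omega)).mp h1
  -- the conserved quantities: `(cos, sin)` of the initial angle
  set P : ℝ → ℝ := fun t => (u t * Real.cos (τ t) + s * v t * Real.sin (τ t)) / Real.sqrt (ρ t)
    with hP
  set Q : ℝ → ℝ := fun t => (s * v t * Real.cos (τ t) - u t * Real.sin (τ t)) / Real.sqrt (ρ t)
    with hQ
  have hsq' : ∀ t ≥ T, HasDerivAt (fun t => Real.sqrt (ρ t))
      (-(w t * ρ t ^ k * Real.sqrt (ρ t))) t := by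
    intro t ht
    have hp := hρ0 t ht
    refine ((hρ' t ht).sqrt hp.ne').congr_deriv ?_
    have h1 : Real.sqrt (ρ t) * Real.sqrt (ρ t) = ρ t := Real.mul_self_sqrt hp.le
    have h2 : Real.sqrt (ρ t) ≠ 0 := (Real.sqrt_pos.mpr hp).ne'
    rw [div_eq_iff (by positivity), pow_succ]
    nth_rewrite 2 [← h1]
    ring
  have hP' : ∀ t ≥ T, HasDerivAt P 0 t := by
    intro t ht
    have hp := hρ0 t ht
    have h2 : Real.sqrt (ρ t) ≠ 0 := (Real.sqrt_pos.mpr hp).ne'
    have h3 := ((hu' t ht).mul (hτ' t ht).cos).add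
      (((hv' t ht).const_mul s).mul (hτ' t ht).sin)
    have h4 := h3.div (hsq' t ht) h2
    refine h4.congr_deriv ?_
    simp only [Pi.add_apply, Pi.mul_apply]
    rw [div_eq_zero_iff]
    left
    linear_combination (w t * u t * Real.sin (τ t) * Real.sqrt (ρ t)) * hs2
  have hQ' : ∀ t ≥ T, HasDerivAt Q 0 t := by
    intro t ht
    have hp := hρ0 t ht
    have h2 : Real.sqrt (ρ t) ≠ 0 := (Real.sqrt_pos.mpr hp).ne'
    have h3 := (((hv' t ht).const_mul s).mul (hτ' t ht).cos).sub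
      ((hu' t ht).mul (hτ' t ht).sin)
    have h4 := h3.div (hsq' t ht) h2
    refine h4.congr_deriv ?_
    simp only [Pi.sub_apply, Pi.mul_apply]
    rw [div_eq_zero_iff]
    left
    linear_combination (w t * u t * Real.cos (τ t) * Real.sqrt (ρ t)) * hs2
  have hconst : ∀ f : ℝ → ℝ, (∀ t ≥ T, HasDerivAt f 0 t) → ∀ t ≥ T, f t = f T := by
    intro f hf t ht
    apply constant_of_has_deriv_right_zero (a := T) (b := t)
    · intro t' ht'
      exact (hf t' ht'.1).continuousAt.continuousWithinAt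
    · intro t' ht'
      exact (hf t' ht'.1).hasDerivWithinAt
    · exact ⟨ht, le_rfl⟩
  have hPc := hconst P hP'
  have hQc := hconst Q hQ'
  -- the initial angle
  have hPQ : P T ^ 2 + Q T ^ 2 = 1 := by
    have hp := hρ0 T le_rfl
    have h2 : Real.sqrt (ρ T) ^ 2 = ρ T := Real.sq_sqrt hp.le
    simp only [hP, hQ]
    rw [hτT, Real.cos_zero, Real.sin_zero]
    rw [div_pow, div_pow, h2, ← add_div, div_eq_one_iff_eq hp.ne', hρuv T]
    linear_combination (v T ^ 2) * hs2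
  obtain ⟨θ, hθ1, hθ2⟩ : ∃ θ : ℝ, Real.cos θ = P T ∧ Real.sin θ = Q T := by
    set z : ℂ := ⟨P T, Q T⟩ with hz
    have hnz : ‖z‖ = 1 := by
      rw [Complex.norm_def, Complex.normSq_mk]
      have : P T * P T + Q T * Q T = 1 := by nlinarith
      rw [this, Real.sqrt_one]
    have hz0 : z ≠ 0 := by
      intro h
      rw [h, norm_zero] at hnz
      norm_num at hnz
    refine ⟨Complex.arg z, ?_, ?_⟩
    · rw [Complex.cos_arg hz0, hnz, div_one]
    · rw [Complex.sin_arg, hnz, div_one]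
  -- make the angle nonnegative
  obtain ⟨N, hN⟩ := exists_nat_ge (-θ / (2 * Real.pi))
  set φ0 : ℝ := θ + N * (2 * Real.pi) with hφ0
  have hφ0pos : 0 ≤ φ0 := by
    have hpi := Real.pi_pos
    rw [div_le_iff₀ (by positivity)] at hN
    rw [hφ0]
    linarith
  have hcosφ : Real.cos φ0 = P T := by rw [hφ0, Real.cos_add_nat_mul_two_pi, hθ1]
  have hsinφ : Real.sin φ0 = Q T := by rw [hφ0, Real.sin_add_nat_mul_two_pi, hθ2]
  have hform : ∀ t ≥ T, u t = R k c0 (τ t) * Real.cos (φ0 + τ t) ∧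
      v t = s * (R k c0 (τ t) * Real.sin (φ0 + τ t)) := by
    intro t ht
    have hp := hρ0 t ht
    have h2 : Real.sqrt (ρ t) ≠ 0 := (Real.sqrt_pos.mpr hp).ne'
    rw [hRρ t ht, Real.cos_add φ0 (τ t), Real.sin_add φ0 (τ t), hcosφ, hsinφ, ← hPc t ht, ← hQc t ht]
    simp only [hP, hQ]
    have hcs := Real.cos_sq_add_sin_sq (τ t)
    constructor
    · field_simp
      linear_combination (-(u t)) * hcs
    · field_simp
      linear_combination (-(v t)) * hcs * s * s - v t * hs2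
  refine ⟨c0, φ0, hc0pos, hφ0pos, ?_⟩
  ext p
  constructor
  · rintro ⟨t, ht, rfl⟩
    exact ⟨τ t, hτ0 t ht, (hform t ht).1, (hform t ht).2⟩
  · rintro ⟨τ1, hτ1, hp0, hp1⟩
    -- find the time
    have hcont : ContinuousOn τ (Ici T) := fun t ht =>
      (hτ' t ht).continuousAt.continuousWithinAt
    obtain ⟨T1, hT1⟩ := (hτtop.eventually_ge_atTop τ1).exists_forall_of_atTop
    set T2 := max T T1 with hT2
    have h1 : τ1 ≤ τ T2 := hT1 T2 (le_max_right _ _)
    obtain ⟨t, ht, htτ⟩ := intermediate_value_Icc (le_max_left T T1)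
      (hcont.mono Icc_subset_Ici_self) ⟨by rw [hτT]; exact hτ1, h1⟩
    refine ⟨t, ht.1, ?_⟩
    obtain ⟨hf1, hf2⟩ := hform t ht.1
    rw [htτ] at hf1 hf2
    ext i
    fin_cases i
    · change x t = p 0
      apply hm.strictMono_pow.injective
      simp only
      rw [hp0]
      exact hf1
    · change y t = p 1
      apply hn.strictMono_pow.injective
      simp only
      rw [hp1]
      exact hf2

/-- **Let `m > n` be odd, `k ≥ 1` and `σ = ±1`. Every spiral trajectory near the origin has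
Minkowski dimension `2 - (1 + n/m)/(1 + 2kn)`.** -/
theorem result (m n k : ℕ) (hm : Odd m) (hn : Odd n) (hmn : n < m) (hk : 1 ≤ k) (σ : ℝ)
    (S : Set Plane) (hS : IsSpiralTrajectory m n k σ S) :
    HasMinkowskiDim S (2 - (1 + (n : ℝ) / m) / (1 + 2 * k * n)) := by
  obtain ⟨x, y, T, h | h⟩ := hS
  · obtain ⟨hσ, hode, hx0, hy0, hS⟩ := h
    obtain ⟨c0, φ0, hc, hφ, he⟩ := reduction (s := 1) hm hn hk (Or.inl rfl) (x := x) (y := y)
      (T := T)
      (fun t ht => by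
        refine (hode t ht).1.congr_deriv ?_
        rw [hσ]
        unfold fieldX
        ring)
      (fun t ht => by
        refine (hode t ht).2.1.congr_deriv ?_
        rw [hσ]
        unfold fieldY
        ring)
      (fun t ht => (hode t ht).2.2) hx0 hy0
    rw [hS, he]
    exact spiral_dim hm hn hmn hk hc hφ (Or.inl rfl)
  · obtain ⟨hσ, hode, hx0, hy0, hS⟩ := h
    obtain ⟨c0, φ0, hc, hφ, he⟩ := reduction (s := -1) hm hn hk (Or.inr rfl)
      (x := fun t => x (-t)) (y := fun t => y (-t)) (T := -T)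
      (fun t ht => by
        have h1 := (hode (-t) (by linarith)).1
        have h2 := HasDerivAt.scomp t h1 (hasDerivAt_neg t)
        refine h2.congr_deriv ?_
        rw [hσ]
        unfold fieldX
        simp only [smul_eq_mul]
        ring)
      (fun t ht => by
        have h1 := (hode (-t) (by linarith)).2.1
        have h2 := HasDerivAt.scomp t h1 (hasDerivAt_neg t)
        refine h2.congr_deriv ?_
        rw [hσ]
        unfold fieldY
        simp only [smul_eq_mul]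
        ring)
      (fun t ht => (hode (-t) (by linarith)).2.2) (hx0.comp tendsto_neg_atTop_atBot)
      (hy0.comp tendsto_neg_atTop_atBot)
    have hS' : S = (fun t => (!₂[x (-t), y (-t)] : Plane)) '' Ici (-T) := by
      rw [hS]
      ext p
      constructor
      · rintro ⟨t, ht, rfl⟩
        exact ⟨-t, (neg_le_neg (show t ≤ T from ht) : -T ≤ -t), by simp⟩
      · rintro ⟨t, ht, rfl⟩
        exact ⟨-t, by have : -T ≤ t := ht; exact (by linarith : -t ≤ T), rfl⟩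
    rw [hS', he]
    exact spiral_dim hm hn hmn hk hc hφ (Or.inr rfl)

end ode

end Pool.Agent.Results.MP_7e532d_an.DegenerateFocus
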